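import Pool.Agent.W5h90.GI.A7
import Pool.Agent.W695.KH.Final
import Pool.Agent.W695.KH.Wrap2

/-!
# The hyperplane conjecture of Kannan, Lovasz and Simonovits for gauge invariant symmetric convex
sets of matrices on the edges of a graph

Let `Γ` be a finite directed graph with `b` edges and vertex degrees at most `Δ`; loops and multiple
edges are allowed, and an edge may have a head and no tail. A configuration is a family of real
`N × N` matrices `X_e`, one for each edge `e`, `3 ≤ N`. The gauge group `SO(N)^{vertices}` acts by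
`X_e ↦ g_{head e} X_e g_{tail e}ᵀ` (`X_e ↦ g_{head e} X_e` for an edge without tail). For symmetric
convex sets, invariant under the gauge group, in the space of all configurations, or in any gauge
invariant linear subspace of it, the best central hyperplane cut is at most
`C √((1 + d) Δ) (1 + log b / N)` times the perimeter of any set of half the volume, with `C`
absolute, where `d` is the dimension of the space of gauge invariant vectors of the subspace
(`d = 0` if `Γ` has no loops).

Method: the local Poincare inequality and the untilting of the starting files (modules `TH591.TT`,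
`H888R2`), for the product of the orthogonal groups at the vertices; the region of bounded operator
norms; and the formalised implication from weak Poincare to Cheeger inequalities (`W695.KH`).
-/

set_option autoImplicit false

namespace Pool.Agent.Results.MP_dc1397_gt.GaugeInvariant

open MeasureTheory Set
open scoped ENNReal InnerProductSpace Matrix Pointwise

/-- a finite directed graph with vertices `Fin p` and edges `Fin b`; every edge has a head, the tail
may be missing (`none`) -/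
structure Graph (p b : ℕ) where
  head : Fin b → Fin p
  tail : Fin b → Option (Fin p)

/-- the degree of the vertex `v`: the number of edges with head `v` plus the number of edges with
tail `v` (a loop counts twice) -/
def degree {p b : ℕ} (Γ : Graph p b) (v : Fin p) : ℕ :=
  (Finset.univ.filter fun e => Γ.head e = v).card +
    (Finset.univ.filter fun e => Γ.tail e = some v).card

/-- configurations: a real `N × N` matrix for each of the `b` edges, with the Euclidean
(Hilbert-Schmidt) structure -/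
abbrev Config (b N : ℕ) : Type := EuclideanSpace ℝ (Fin b × (Fin N × Fin N))

/-- the matrix on the edge `e` -/
def mat {b N : ℕ} (e : Fin b) (x : Config b N) : Matrix (Fin N) (Fin N) ℝ :=
  Matrix.of fun i j => x (e, (i, j))

/-- `g` is a rotation: `g ∈ SO(N)` -/
def Rotation {N : ℕ} (g : Matrix (Fin N) (Fin N) ℝ) : Prop := g * gᵀ = 1 ∧ g.det = 1

/-- the matrix of the gauge transformation `g` at the tail of an edge: `g v` if the tail is `v`, the
identity matrix if there is no tail -/
def atTail {p N : ℕ} (g : Fin p → Matrix (Fin N) (Fin N) ℝ) : Option (Fin p) →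
    Matrix (Fin N) (Fin N) ℝ
  | none => 1
  | some v => g v

/-- `y` is the configuration `x` transformed by `g`: `X_e ↦ g_{head e} X_e g_{tail e}ᵀ` -/
def Transformed {p b N : ℕ} (Γ : Graph p b) (g : Fin p → Matrix (Fin N) (Fin N) ℝ)
    (x y : Config b N) : Prop :=
  ∀ e, mat e y = g (Γ.head e) * mat e x * (atTail g (Γ.tail e))ᵀ

section sub

variable {κ : Type} [Fintype κ] {p b N : ℕ}

/-- `ι` is a linear isometry of the Euclidean space `ℝ^κ` onto a linear subspace of the space of
configurations which is invariant under the gauge transformations (families of rotations). -/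
def InvSubspace (Γ : Graph p b) (ι : EuclideanSpace ℝ κ →ₗᵢ[ℝ] Config b N) : Prop :=
  ∀ g : Fin p → Matrix (Fin N) (Fin N) ℝ, (∀ v, Rotation (g v)) →
    ∀ x, ∃ y, Transformed Γ g (ι x) (ι y)

/-- `Ω` (a set of elements of the subspace `ι(ℝ^κ)`) is invariant under the gauge
transformations. -/
def Invariant (Γ : Graph p b) (ι : EuclideanSpace ℝ κ →ₗᵢ[ℝ] Config b N)
    (Ω : Set (EuclideanSpace ℝ κ)) : Prop :=
  ∀ g : Fin p → Matrix (Fin N) (Fin N) ℝ, (∀ v, Rotation (g v)) →
    ∀ x y, Transformed Γ g (ι x) (ι y) → x ∈ Ω → y ∈ Ω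

/-- the space of the gauge invariant vectors of the subspace `ι(ℝ^κ)` -/
def fixedSpace (Γ : Graph p b) (ι : EuclideanSpace ℝ κ →ₗᵢ[ℝ] Config b N) :
    Submodule ℝ (EuclideanSpace ℝ κ) :=
  Submodule.span ℝ {x | ∀ g : Fin p → Matrix (Fin N) (Fin N) ℝ, (∀ v, Rotation (g v)) →
    Transformed Γ g (ι x) (ι x)}

end sub

/-- the Lebesgue measure of a Euclidean space -/
noncomputable def lebesgue (F : Type) [NormedAddCommGroup F] [InnerProductSpace ℝ F]
    [FiniteDimensional ℝ F] [MeasurableSpace F] [BorelSpace F] : Measure F := volume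

/-- the Lebesgue measure (of the Euclidean space `W`) of the section `Ω ∩ W` by a subspace `W` -/
noncomputable def areaIn {F : Type} [NormedAddCommGroup F] [InnerProductSpace ℝ F]
    [FiniteDimensional ℝ F] [MeasurableSpace F] [BorelSpace F] (W : Submodule ℝ F) (Ω : Set F) :
    ℝ≥0∞ := lebesgue W {y : W | (y : F) ∈ Ω}

section defs

variable {κ : Type} [Fintype κ]

/-- an open, convex, bounded, nonempty set -/
structure Domain (Ω : Set (EuclideanSpace ℝ κ)) : Prop where
  op : IsOpen Ω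
  conv : Convex ℝ Ω
  bdd : Bornology.IsBounded Ω
  ne : Ω.Nonempty

open Classical in
/-- divergence of a vector field on `ℝ^κ` -/
noncomputable def divergence (X : EuclideanSpace ℝ κ → EuclideanSpace ℝ κ)
    (x : EuclideanSpace ℝ κ) : ℝ :=
  ∑ i, fderiv ℝ X x (EuclideanSpace.single i 1) i

/-- `C¹` vector fields with compact support in `Ω` and `‖X‖ ≤ 1` -/
structure Test (Ω : Set (EuclideanSpace ℝ κ)) (X : EuclideanSpace ℝ κ → EuclideanSpace ℝ κ) :
    Prop where
  diff : ContDiff ℝ 1 X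
  comp : HasCompactSupport X
  sub : tsupport X ⊆ Ω
  le : ∀ x, ‖X x‖ ≤ 1

/-- the (De Giorgi) perimeter `P(E; Ω)` of `E` relative to the open set `Ω` -/
noncomputable def perimeter (E Ω : Set (EuclideanSpace ℝ κ)) : ℝ≥0∞ :=
  ⨆ (X : EuclideanSpace ℝ κ → EuclideanSpace ℝ κ) (_ : Test Ω X),
    ENNReal.ofReal (∫ x in E, divergence X x)

/-- the area (Lebesgue measure in the hyperplane `a^⊥`) of the central section of `Ω` by `a^⊥` -/
noncomputable def sectionArea (Ω : Set (EuclideanSpace ℝ κ)) (a : EuclideanSpace ℝ κ) : ℝ≥0∞ :=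
  areaIn (Submodule.span ℝ {a})ᗮ Ω

/-- some central hyperplane section has area at most `K P(E; Ω)` for every measurable `E ⊆ Ω` with
`|E| = |Ω| / 2` -/
def HyperplaneBound (K : ℝ) (Ω : Set (EuclideanSpace ℝ κ)) : Prop :=
  ∃ a : EuclideanSpace ℝ κ, a ≠ 0 ∧ ∀ E : Set (EuclideanSpace ℝ κ), MeasurableSet E → E ⊆ Ω →
    volume E = volume Ω / 2 → sectionArea Ω a ≤ ENNReal.ofReal K * perimeter E Ω

/-- the perimeter is the one used in the proof -/
theorem perimeter_eq (E Ω : Set (EuclideanSpace ℝ κ)) :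
    Pool.Agent.W695.KH.per E Ω = perimeter E Ω := by
  unfold perimeter Pool.Agent.W695.KH.per
  refine iSup_congr fun X => ?_
  refine iSup_congr_Prop ⟨fun h => ⟨h.1, h.2.1, h.2.2.1, h.2.2.2⟩,
    fun h => ⟨h.diff, h.comp, h.sub, h.le⟩⟩ fun _ => rfl

end defs

section tr

variable {κ : Type} [Fintype κ] {p b N : ℕ}

/-- the graph, as in the proof -/
def toG (Γ : Graph p b) : Pool.Agent.W5h90.GI.Gph p b := ⟨Γ.head, Γ.tail⟩

/-- the embedding of the configurations into the space used in the proof -/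
noncomputable def inc (b N : ℕ) : Config b N →ₗᵢ[ℝ] Pool.Agent.W5h90.GI.W b N where
  toFun x := TH591.TT.mk (fun e => mat e x) 0
  map_add' x y := by
    refine Pool.Agent.W5h90.GI.ext_W fun e => ?_
    rw [map_add]
    rfl
  map_smul' c x := by
    refine Pool.Agent.W5h90.GI.ext_W fun e => ?_
    rw [map_smul]
    rfl
  norm_map' x := by
    have h1 : ‖(TH591.TT.mk (fun e => mat e x) 0 : Pool.Agent.W5h90.GI.W b N)‖ ^ 2 = ‖x‖ ^ 2 := by
      rw [Pool.Agent.W5h90.GI.norm_W, EuclideanSpace.real_norm_sq_eq, Fintype.sum_prod_type]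
      refine Finset.sum_congr rfl fun e _ => ?_
      rw [TH591.TT.mt_mk, TH591.TT.hs, Fintype.sum_prod_type]
      refine Finset.sum_congr rfl fun i _ => Finset.sum_congr rfl fun j _ => ?_
      rw [sq]
      rfl
    exact (sq_eq_sq₀ (norm_nonneg _) (norm_nonneg _)).1 h1

theorem mt_inc (x : Config b N) (e : Fin b) : TH591.TT.mt e (inc b N x) = mat e x := rfl

theorem atTail_eq (g : Fin p → Matrix (Fin N) (Fin N) ℝ) (o : Option (Fin p)) :
    atTail g o = Pool.Agent.W5h90.GI.ex g o := by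
  rcases o with _ | v <;> rfl

theorem trans_iff (Γ : Graph p b) (g : Fin p → Matrix (Fin N) (Fin N) ℝ) (x y : Config b N) :
    Transformed Γ g x y ↔ inc b N y = Pool.Agent.W5h90.GI.GR (toG Γ) g (inc b N x) := by
  constructor
  · intro h
    refine Pool.Agent.W5h90.GI.ext_W fun e => ?_
    rw [mt_inc, h e, Pool.Agent.W5h90.GI.mt_GR, mt_inc, atTail_eq]
    rfl
  · intro h e
    have h1 := congrArg (TH591.TT.mt e) h
    rw [mt_inc, Pool.Agent.W5h90.GI.mt_GR, mt_inc, ← atTail_eq] at h1
    exact h1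

theorem rot_iff (g : Matrix (Fin N) (Fin N) ℝ) : Rotation g ↔ TH591.TT.IsSO g := by
  constructor
  · rintro ⟨h1, h2⟩
    exact ⟨(Matrix.mem_orthogonalGroup_iff (Fin N) ℝ).2 h1, h2⟩
  · rintro ⟨h1, h2⟩
    exact ⟨TH591.TT.orth1 h1, h2⟩

theorem gauge_iff (g : Fin p → Matrix (Fin N) (Fin N) ℝ) :
    (∀ v, Rotation (g v)) ↔ Pool.Agent.W5h90.GI.IsG g :=
  forall_congr' fun v => rot_iff (g v)

theorem fixed_eq (Γ : Graph p b) (ι : EuclideanSpace ℝ κ →ₗᵢ[ℝ] Config b N) :
    fixedSpace Γ ι = Pool.Agent.W5h90.GI.FX (toG Γ) ((inc b N).comp ι) := by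
  have h : {x | ∀ g : Fin p → Matrix (Fin N) (Fin N) ℝ, (∀ v, Rotation (g v)) →
      Transformed Γ g (ι x) (ι x)} =
      (Pool.Agent.W5h90.GI.FX (toG Γ) ((inc b N).comp ι) : Set (EuclideanSpace ℝ κ)) := by
    ext x
    constructor
    · intro hx g hg
      exact ((trans_iff Γ g _ _).1 (hx g ((gauge_iff g).2 hg))).symm
    · intro hx g hg
      exact (trans_iff Γ g _ _).2 (hx g ((gauge_iff g).1 hg)).symm
  unfold fixedSpace
  rw [h, Submodule.span_eq]

theorem degree_eq (Γ : Graph p b) (v : Fin p) :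
    (degree Γ v : ℝ) = ∑ e, (Pool.Agent.W5h90.GI.τ (toG Γ) e v +
      Pool.Agent.W5h90.GI.σ (toG Γ) e v) := by
  unfold degree Pool.Agent.W5h90.GI.τ Pool.Agent.W5h90.GI.σ toG
  rw [Finset.sum_add_distrib]
  push_cast
  simp [Finset.sum_boole]

end tr

/-- **The hyperplane conjecture for gauge invariant symmetric convex sets.** There is an absolute
constant `C` such that for every `N ≥ 3`, every finite directed graph `Γ` with `b` edges and degrees
at most `Δ`, every isometrically parametrised gauge invariant linear subspace `ι(ℝ^κ) ≠ 0` of the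
space of configurations `(X_e)` of real `N × N` matrices on the edges, with `d` the dimension of its
space of gauge invariant vectors, and every nonempty open bounded convex set `Ω = -Ω` in it invariant
under the gauge transformations `X_e ↦ g_{head e} X_e g_{tail e}ᵀ`, `g_v ∈ SO(N)`, there is a central
hyperplane `a^⊥` such that for every measurable `E ⊆ Ω` with `|E| = |Ω| / 2`:
`H_{n-1}(Ω ∩ a^⊥) ≤ C √((1 + d) Δ) (1 + log b / N) P(E; Ω)`, where `n` is the dimension. -/
theorem result : ∃ C : ℝ, 0 < C ∧ ∀ (p b N Δ : ℕ) (Γ : Graph p b), 3 ≤ N →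
    (∀ v, degree Γ v ≤ Δ) → ∀ (κ : Type) [Fintype κ] [Nonempty κ]
    (ι : EuclideanSpace ℝ κ →ₗᵢ[ℝ] Config b N), InvSubspace Γ ι →
    ∀ Ω : Set (EuclideanSpace ℝ κ), Domain Ω → (∀ x ∈ Ω, -x ∈ Ω) → Invariant Γ ι Ω →
    HyperplaneBound (C * (Real.sqrt ((1 + Module.finrank ℝ (fixedSpace Γ ι)) * Δ) *
      (1 + Real.log b / N))) Ω := by
  obtain ⟨C, hC, H⟩ := Pool.Agent.W695.KH.final Pool.Agent.W695.KH.main Pool.Agent.W695.KH.proj
  obtain ⟨C₂, hC₂, h₂⟩ := Pool.Agent.W5h90.GI.slG
  refine ⟨C * Real.sqrt (8 * C₂), by positivity, ?_⟩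
  intro p b N Δ Γ hN hΔ κ _ _ ι hι Ω hΩ hsym hinv
  obtain ⟨hop, hco, hbd, hne⟩ := hΩ
  obtain ⟨ι', hι'⟩ : ∃ ι' : EuclideanSpace ℝ κ →ₗᵢ[ℝ] Pool.Agent.W5h90.GI.W b N,
    ι' = (inc b N).comp ι := ⟨_, rfl⟩
  have hb1 : 1 ≤ b := by
    classical
    by_contra hcon
    have hb0 : b = 0 := by omega
    obtain ⟨i⟩ : Nonempty κ := inferInstance
    have h1 : ‖ι (EuclideanSpace.single i 1)‖ = 1 := by
      rw [ι.norm_map]
      simp
    have h2 : ι (EuclideanSpace.single i 1) = 0 := by
      ext q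
      exact absurd q.1.2 (by omega)
    rw [h2, norm_zero] at h1
    exact zero_ne_one h1
  have hΔr : ∀ v, ∑ e, (Pool.Agent.W5h90.GI.τ (toG Γ) e v +
      Pool.Agent.W5h90.GI.σ (toG Γ) e v) ≤ (Δ : ℝ) := by
    intro v
    rw [← degree_eq]
    exact_mod_cast hΔ v
  have hΔ1 : (1 : ℝ) ≤ Δ := by
    have h1 : 1 ≤ degree Γ (Γ.head ⟨0, hb1⟩) := by
      unfold degree
      have h2 : 0 < (Finset.univ.filter fun e => Γ.head e = Γ.head ⟨0, hb1⟩).card :=
        Finset.card_pos.2 ⟨⟨0, hb1⟩, by simp⟩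
      omega
    exact_mod_cast h1.trans (hΔ _)
  have hInv : Pool.Agent.W5h90.GI.InvG (toG Γ) ι' := by
    intro g hg x
    obtain ⟨y, hy⟩ := hι g ((gauge_iff g).2 hg) x
    rw [hι']
    exact ⟨y, (trans_iff Γ g _ _).1 hy⟩
  obtain ⟨d, hd⟩ : ∃ d : ℕ, d = Module.finrank ℝ (fixedSpace Γ ι) := ⟨_, rfl⟩
  have hSL := h₂ hN hb1 (toG Γ) ι' hInv (Δ : ℝ) hΔ1 hΔr
  rw [hι', ← fixed_eq, ← hd, ← hι'] at hSL
  have hF : 0 < Pool.Agent.W5h90.GI.facG d (Δ : ℝ) b N :=
    Pool.Agent.W5h90.GI.facG_pos d (by linarith) b N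
  have hC' : 0 < C₂ * Pool.Agent.W5h90.GI.facG d (Δ : ℝ) b N := mul_pos hC₂ hF
  have h0 : (0 : EuclideanSpace ℝ κ) ∈ Ω := by
    obtain ⟨x, hx⟩ := hne
    have h1 := hco hx (hsym x hx) (by norm_num : (0 : ℝ) ≤ 1 / 2)
      (by norm_num : (0 : ℝ) ≤ 1 / 2) (by norm_num)
    simpa using h1
  obtain ⟨a, ha, h⟩ := H κ Ω hop hco hbd h0 hsym (8 * (C₂ * Pool.Agent.W5h90.GI.facG d (Δ : ℝ) b N))
    (by positivity)
    (fun r A hr hr1 hA hprob hnn hmeas hlc hiso s hs hmom v hv hvb => by
      have hρ : TH591.TT.GD (Pool.Agent.W5h90.GI.GG (toG Γ) ι')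
          (Pool.Agent.W695.KH.rh (r • closure Ω) A) := by
        refine ⟨hnn, hmeas, hlc, ?_⟩
        rintro e ⟨g, hg, he⟩ x
        rw [hι'] at he
        refine hiso e (fun y => ⟨fun hy => ?_, fun hy => ?_⟩) x
        · refine hinv (fun v => (g v)ᵀ) ((gauge_iff _).2 hg.tp) _ _ ((trans_iff Γ _ _ _).2 ?_) hy
          have h5 : inc b N (ι (e y)) = Pool.Agent.W5h90.GI.GR (toG Γ) g (inc b N (ι y)) := he y
          rw [h5, Pool.Agent.W5h90.GI.GR_tp1 _ hg]
        · exact hinv g ((gauge_iff g).2 hg) _ _ ((trans_iff Γ _ _ _).2 (he y)) hy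
      exact Pool.Agent.W5h90.GI.mainc hC' hSL _ hρ hprob s hs hmom v hv hvb)
  refine ⟨a, ha, fun E hE hEΩ hvol => ?_⟩
  have h4 := h E hE hEΩ hvol
  rw [perimeter_eq] at h4
  have hlog : 0 ≤ Real.log b := Real.log_natCast_nonneg b
  have e1 : Real.sqrt (8 * (C₂ * Pool.Agent.W5h90.GI.facG d (Δ : ℝ) b N)) =
      Real.sqrt (8 * C₂) * (Real.sqrt ((1 + d) * Δ) * (1 + Real.log b / N)) := by
    have e2 : 8 * (C₂ * Pool.Agent.W5h90.GI.facG d (Δ : ℝ) b N) =
        (8 * C₂) * (((1 + d) * Δ) * (1 + Real.log b / N) ^ 2) := by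
      unfold Pool.Agent.W5h90.GI.facG
      ring
    rw [e2, Real.sqrt_mul (by positivity), Real.sqrt_mul (by positivity)
      ((1 + Real.log b / N) ^ 2), Real.sqrt_sq (by positivity)]
  rw [e1, ← mul_assoc] at h4
  rw [← hd]
  exact h4

end Pool.Agent.Results.MP_dc1397_gt.GaugeInvariant
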