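import Pool.Agent.W5h33.KL.Cl
import Pool.Agent.W5h33.KL.Sy
import Pool.Agent.W5h33.KL.Hom
import Pool.Agent.W5h33.KL.An
import Pool.Agent.R751.MB.All
import Pool.Agent.Y151.PV.Hyp
import Pool.Agent.Y252.PV.M4
import Pool.Agent.Y625.PV.LevUm

/-!
# The hyperplane conjecture for bodies fibred over few ridge functions

Q1 for the symmetric bodies of a class which starts with the convex bodies
`K = {(x_1, …, x_N, t) ∈ ℝ^{k_1} × ⋯ × ℝ^{k_N} × ℝ^m | x_i ∈ F_i(⟪v_i, t⟫) for all i}`, in any linear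
coordinates, with `N ≤ m + q` vectors `v_i ∈ ℝ^m`. The dimensions `m`, `N` and `k_i ≥ 0` of the blocks are
arbitrary; the `i`-th block depends on `t` through the linear functional `⟪v_i, t⟫` only. The
families `s ↦ F_i(s) ⊂ ℝ^{k_i}`, `s ∈ ℝ`, are (`Block`)
* slabs: `k_i = 0`, the condition is `⟪v_i, t⟫ ∈ I_i` for a symmetric interval `I_i`;
* homothetic families `F(s) = g(s) B`, `s ∈ I`, where `g ≥ 0` is an even concave function on a symmetric
  interval `I` and `B` is the unit ball of an admissible norm (1-symmetric norms, left invariant norms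
  of matrices, unitarily invariant norms of Hermitian matrices), or any other symmetric convex body with the
  Poincaré inequality with constant `c₀` in isotropic position;
* all families with 1-symmetric fibres: `F(s) = {x | (x, s) ∈ D}` for any convex body
  `D ⊂ ℝ^k × ℝ` which is invariant under `s ↦ -s` and under the permutations and the sign changes of
  the coordinates of `x`; here `F(s)` and `F(s')` may have completely different shapes;
* all even convex families of symmetric bodies with the Poincaré inequality with constant `c₀` and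
  comparable covariances.
For example (`q = 0`, `m = N`, `v_i` the standard basis) products of such bodies
`D_i ⊂ ℝ^{k_i} × ℝ`, and (`q > 0`) the sections of products of such bodies `D_i ⊂ ℝ^{k_i} × ℝ`,
`i = 1, …, m + q`, by subspaces of codimension `q` given by linear equations between the last coordinates
`s_i`, as `{(x_i, s_i)_i | |x_i|_{B_i} ≤ g_i(s_i) for all i, s_1 + ⋯ + s_N = 0}`; the volumes of the
fibres, and so the marginals on `ℝ^m`, are products of the log-concave functions `|F_i(⟪v_i, t⟫)|`,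
which degenerate as `k_i → ∞`. The class is closed under images
and lifts whose kernels have dimension at most `r`, and under arbitrary fibrations over `ℝ^j`, `j ≤ r`
(`Ridge`).

The constant depends only on `c₀`, `q`, `r` and the number of these operations.

Method. Disintegrate over `ℝ^m`. (1) The law of `t` has a density proportional to
`∏ |F_i(⟪v_i, t⟫)|`, where the factors are log-concave functions of one variable (Prékopa, Leindler)
and there are at most `m + q` of them; concentration is known for such densities (starting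
library). The law of `t` is the limit of uniform measures on the bodies `{(εx, t)}`; this gives the
weak Poincaré inequality. (2) The fibres are linear images of the products `∏ F_i(⟪v_i, t⟫)` and
have the Poincaré inequality in isotropic position, with a constant which does not depend on `N`,
and they are symmetric. (3) The covariances of the fibres are not comparable with each other, as
the bodies `F_i(s)` may degenerate at the ends of their interval; but each of them is at most a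
constant times the covariance of `K`: half of the mass of `K` satisfies
`|⟪v_i, t⟫| ≤ S_i / 2`, where `S_i` is the maximum over `K` (symmetric log-concave functions of one
variable), and there `F_i` is not much smaller than `F_i(0)`, so its covariance is at least a constant
multiple of the covariance of any `F_i(s)`. For 1-symmetric families: if `a = E|x_1|` over `F(s)`,
then `F(s)`, and by convexity also `F(0)`, contains the cube with the side `2a`, `F(s')` contains a cube
with the side `a` for `|s'| ≤ S/2`, and a body which contains a cube with the side `2b` has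
`E‖x‖² ≥ n b² / 80` (Gaussian comparison of volumes), whereas `E x_1² ≤ C a²` (moments of log-concave
functions). (4) So `K` is a centred fibration in the sense of the starting result
`CentredFibrations`, and the inequality follows.
-/

set_option autoImplicit false

namespace Pool.Agent.Results.MP_dc1397_gt.RidgeFibrations

open MeasureTheory Set
open scoped ENNReal InnerProductSpace

/-- Euclidean space of dimension `n` -/
abbrev Euc (n : ℕ) : Type := EuclideanSpace ℝ (Fin n)

/-- the uniform probability measure on `K` -/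
noncomputable def unif {n : ℕ} (K : Set (Euc n)) : Measure (Euc n) :=
  (volume K)⁻¹ • volume.restrict K

/-- convex bodies -/
structure Body {n : ℕ} (K : Set (Euc n)) : Prop where
  comp : IsCompact K
  conv : Convex ℝ K
  int : (interior K).Nonempty

/-- convex bodies with the Poincaré inequality `Var f ≤ c₀ E ‖∇ f‖²`, for bounded `C¹` functions with
bounded gradients, in isotropic position: after some linear bijection `A` which makes all
variances in directions of length one equal to one -/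
structure PoincareBody (c₀ : ℝ) {n : ℕ} (B : Set (Euc n)) : Prop extends Body B where
  ineq : ∃ A : Euc n ≃ₗ[ℝ] Euc n,
    (∀ θ : Euc n, ProbabilityTheory.variance (fun x => ⟪A x, θ⟫_ℝ) (unif B) = ‖θ‖ ^ 2) ∧
    ∀ f : Euc n → ℝ, ContDiff ℝ 1 f → (∃ b : ℝ, ∀ x, |f x| ≤ b) →
      (∃ b : ℝ, ∀ x, ‖fderiv ℝ f x‖ ≤ b) → ProbabilityTheory.variance (fun x => f (A x)) (unif B) ≤
        c₀ * ∫ x, ‖fderiv ℝ f (A x)‖ ^ 2 ∂(unif B)

/-! ### admissible norms -/

/-- real `m × l` matrices, with the Euclidean structure of `ℝ^(ml)` -/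
abbrev Mat (m l : ℕ) : Type := EuclideanSpace ℝ (Fin m × Fin l)

/-- norms -/
structure IsNorm {κ : Type} [Fintype κ] (N : EuclideanSpace ℝ κ → ℝ) : Prop where
  add_le : ∀ x y, N (x + y) ≤ N x + N y
  smul : ∀ (r : ℝ) (x : EuclideanSpace ℝ κ), N (r • x) = |r| * N x
  pos : ∀ x, x ≠ 0 → 0 < N x

/-- `N` does not change when coordinates are permuted or change their signs -/
def OneSymmetric {k : ℕ} (N : Euc k → ℝ) : Prop :=
  ∀ σ : Equiv.Perm (Fin k), ∀ x y : Euc k, (∀ i, |y i| = |x (σ i)|) → N y = N x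

/-- `N (g X) = N X` for all orthogonal matrices `g` -/
def LeftInvariant {m l : ℕ} (N : Mat m l → ℝ) : Prop :=
  ∀ g ∈ Matrix.orthogonalGroup (Fin m) ℝ, ∀ X : Mat m l,
    N (WithLp.toLp 2 fun p => ∑ k, g p.1 k * X (k, p.2)) = N X

/-- `Φ` is a linear isometric parametrisation of the Hermitian `D × D` matrices over `𝕜` (`ℝ` or `ℂ`),
with the Hilbert-Schmidt norm, by `ℝ^ι` -/
structure HermFrame {𝕜 : Type} [RCLike 𝕜] {D : ℕ} {ι : Type} [Fintype ι]
    (Φ : EuclideanSpace ℝ ι →ₗ[ℝ] Matrix (Fin D) (Fin D) 𝕜) : Prop where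
  herm : ∀ x, (Φ x).conjTranspose = Φ x
  surj : ∀ A : Matrix (Fin D) (Fin D) 𝕜, A.conjTranspose = A → ∃ x, Φ x = A
  iso : ∀ x, ∑ i, ∑ j, ‖Φ x i j‖ ^ 2 = ‖x‖ ^ 2

/-- `N` does not change when the matrix `Φ x` is conjugated by a unitary matrix -/
def ConjInvariant {𝕜 : Type} [RCLike 𝕜] {D : ℕ} {ι : Type} [Fintype ι]
    (Φ : EuclideanSpace ℝ ι →ₗ[ℝ] Matrix (Fin D) (Fin D) 𝕜) (N : EuclideanSpace ℝ ι → ℝ) : Prop :=
  ∀ U ∈ Matrix.unitaryGroup (Fin D) 𝕜, ∀ x y : EuclideanSpace ℝ ι,
    Φ y = U * Φ x * U.conjTranspose → N y = N x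

/-- The norms on `ℝ^k` which are admitted: 1-symmetric norms, and, in any linear coordinates, left
invariant norms on `m × l` matrices, `1 ≤ l ≤ m`, `3 ≤ m`, and conjugation invariant norms on Hermitian
matrices of order at least 3. -/
inductive Admissible : ∀ k : ℕ, (Euc k → ℝ) → Prop
  | oneSymmetric (k : ℕ) (N : Euc k → ℝ) : 1 ≤ k → IsNorm N → OneSymmetric N → Admissible k N
  | matrices (m l k : ℕ) (e : Mat m l ≃ₗ[ℝ] Euc k) (N : Mat m l → ℝ) : 3 ≤ m → 1 ≤ l → l ≤ m →
      IsNorm N → LeftInvariant N → Admissible k fun z => N (e.symm z)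
  | hermitian (𝕜 : Type) [RCLike 𝕜] (D : ℕ) (ι : Type) [Fintype ι]
      (Φ : EuclideanSpace ℝ ι →ₗ[ℝ] Matrix (Fin D) (Fin D) 𝕜) (k : ℕ)
      (e : EuclideanSpace ℝ ι ≃ₗ[ℝ] Euc k) (N : EuclideanSpace ℝ ι → ℝ) : 3 ≤ D → HermFrame Φ →
      IsNorm N → ConjInvariant Φ N → Admissible k fun z => N (e.symm z)

/-! ### the bodies -/

/-- even convex families of symmetric sets: `F(s) ⊂ ℝ^k`, `s ∈ ℝ`, is compact and symmetric (or
empty), `F(-s) = F(s)` and `{(x, s) | x ∈ F(s)} ⊂ ℝ^k × ℝ` is convex -/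
structure EvenFamily {k : ℕ} (F : ℝ → Set (Euc k)) : Prop where
  comp : ∀ s, IsCompact (F s)
  conv : Convex ℝ {z : Euc k × ℝ | z.1 ∈ F z.2}
  even : ∀ s, F (-s) = F s
  symm : ∀ s, ∀ x ∈ F s, -x ∈ F s

/-- the families `s ↦ F(s) ⊂ ℝ^k` -/
inductive Block (c₀ : ℝ) : ∀ {k : ℕ}, (ℝ → Set (Euc k)) → Prop
  /-- slabs: `F(s)` is the point of `ℝ^0` if `s` belongs to the symmetric interval `I`, else empty -/
  | slab {I : Set ℝ} : Convex ℝ I → (∀ s ∈ I, -s ∈ I) → Block c₀ (k := 0) fun s => {_x | s ∈ I}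
  /-- `F(s) = g(s) B` for `s ∈ I`, else empty, where `B` is the unit ball of an admissible norm -/
  | norm {k : ℕ} {M : Euc k → ℝ} {I : Set ℝ} {g : ℝ → ℝ} : Admissible k M →
      (∀ s ∈ I, -s ∈ I ∧ 0 ≤ g s ∧ g (-s) = g s) → ConcaveOn ℝ I g →
      Block c₀ fun s => {x | s ∈ I ∧ ∃ y, M y ≤ 1 ∧ x = g s • y}
  /-- the same for a symmetric body `B` with the Poincaré inequality with constant `c₀` -/
  | homothetic {k : ℕ} {B : Set (Euc k)} {I : Set ℝ} {g : ℝ → ℝ} : PoincareBody c₀ B →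
      (∀ x ∈ B, -x ∈ B) → (∀ s ∈ I, -s ∈ I ∧ 0 ≤ g s ∧ g (-s) = g s) → ConcaveOn ℝ I g →
      Block c₀ fun s => {x | s ∈ I ∧ ∃ y ∈ B, x = g s • y}
  /-- families of 1-symmetric sets: permutations and sign changes of the coordinates of `ℝ^k` leave
  each `F(s)` invariant -/
  | oneSymmetric {k : ℕ} {F : ℝ → Set (Euc k)} : EvenFamily F →
      (∀ s, ∀ σ : Equiv.Perm (Fin k), ∀ x y : Euc k, (∀ i, |y i| = |x (σ i)|) → x ∈ F s → y ∈ F s) →
      Block c₀ F
  /-- families of bodies with the Poincaré inequality with constant `c₀`, such that the covariance of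
  `F(s)`, `|s| ≤ S`, is at most `c₀` times the covariance of `F(s')`, `|s'| ≤ S / 2`, if `F(S) ≠ ∅` -/
  | comparable {k : ℕ} {F : ℝ → Set (Euc k)} : EvenFamily F →
      (∀ s, volume (F s) ≠ 0 → PoincareBody c₀ (F s)) →
      (∀ S s s' : ℝ, |s| ≤ S → |s'| ≤ S / 2 → (F S).Nonempty → volume (F s) ≠ 0 → ∀ θ : Euc k,
        ∫ x, ⟪x, θ⟫_ℝ ^ 2 ∂(unif (F s)) ≤ c₀ * ∫ x, ⟪x, θ⟫_ℝ ^ 2 ∂(unif (F s'))) →
      Block c₀ F

/-- bodies fibred over few ridge functions: in some linear coordinates,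
`K = {(x_1, …, x_N, t) ∈ ℝ^{k_1} × ⋯ × ℝ^{k_N} × ℝ^m | x_i ∈ F_i(⟪v_i, t⟫) for all i}`, `N ≤ m + q` -/
structure RidgeFibred (c₀ : ℝ) (q : ℕ) {n : ℕ} (K : Set (Euc n)) : Prop where
  comp : IsCompact K
  int : (interior K).Nonempty
  rep : ∃ (N m : ℕ) (k : Fin N → ℕ) (e : ((∀ i, Euc (k i)) × Euc m) ≃ₗ[ℝ] Euc n)
    (v : Fin N → Euc m) (F : ∀ i, ℝ → Set (Euc (k i))), N ≤ m + q ∧ (∀ i, Block c₀ (F i)) ∧
    K = e '' {z | ∀ i, z.1 i ∈ F i ⟪v i, z.2⟫_ℝ}

/-- the fibre over `t` of the set `K ⊂ ℝⁿ ≅ ℝ^N × ℝ^j` -/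
def fibre {N j n : ℕ} (e : (Euc N × Euc j) ≃ₗ[ℝ] Euc n) (K : Set (Euc n)) (t : Euc j) :
    Set (Euc N) := {x | e (x, t) ∈ K}

/-- The class of bodies. It contains the bodies fibred over few ridge functions (`base`). Bodies of
depth `h + 1` are obtained from those of depth `h` by
* images under affine maps with kernels of dimension at most `r` (`image`), and adding at most `r`
  dimensions (`lift`: all convex bodies `K` with a linear image, under a map with a kernel of dimension
  at most `r`, of depth `h`);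
* `fibred`: all convex bodies `K ⊂ ℝ^N × ℝ^j`, `j ≤ r`, whose fibres over the points of `ℝ^j` are of
  depth `h` or of volume zero. -/
inductive Ridge (c₀ : ℝ) (q r : ℕ) : ℕ → ∀ {n : ℕ}, Set (Euc n) → Prop
  | base {n : ℕ} {K : Set (Euc n)} : RidgeFibred c₀ q K → Ridge c₀ q r 0 K
  | up {h n : ℕ} {K : Set (Euc n)} : Ridge c₀ q r h K → Ridge c₀ q r (h + 1) K
  | image {h m n : ℕ} {K : Set (Euc m)} (T : Euc m →ₗ[ℝ] Euc n) (w : Euc n) : m ≤ n + r →
      Function.Surjective T → Ridge c₀ q r h K → Ridge c₀ q r (h + 1) ((fun x => w + T x) '' K)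
  | lift {h m n : ℕ} {K : Set (Euc m)} (T : Euc m →ₗ[ℝ] Euc n) : m ≤ n + r →
      Function.Surjective T → Body K → Ridge c₀ q r h (T '' K) → Ridge c₀ q r (h + 1) K
  | fibred {h N j n : ℕ} {K : Set (Euc n)} (e : (Euc N × Euc j) ≃ₗ[ℝ] Euc n) : j ≤ r → Body K →
      (∀ t, volume (fibre e K t) ≠ 0 → Ridge c₀ q r h (fibre e K t)) → Ridge c₀ q r (h + 1) K

/-- the Lebesgue measure of a Euclidean space -/
noncomputable def lebesgue (F : Type) [NormedAddCommGroup F] [InnerProductSpace ℝ F]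
    [FiniteDimensional ℝ F] [MeasurableSpace F] [BorelSpace F] : Measure F := volume

/-- the Lebesgue measure (of the Euclidean space `W`) of the section `Ω ∩ W` by a subspace `W` -/
noncomputable def areaIn {F : Type} [NormedAddCommGroup F] [InnerProductSpace ℝ F]
    [FiniteDimensional ℝ F] [MeasurableSpace F] [BorelSpace F] (W : Submodule ℝ F) (Ω : Set F) :
    ℝ≥0∞ := lebesgue W {y : W | (y : F) ∈ Ω}

section defs

variable {κ : Type} [Fintype κ]

open Classical in
/-- divergence of a vector field on `ℝ^κ` -/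
noncomputable def divergence (X : EuclideanSpace ℝ κ → EuclideanSpace ℝ κ)
    (x : EuclideanSpace ℝ κ) : ℝ :=
  ∑ i, fderiv ℝ X x (EuclideanSpace.single i 1) i

/-- `C¹` vector fields with compact support in `Ω` and `‖X‖ ≤ 1` -/
structure Test (Ω : Set (EuclideanSpace ℝ κ)) (X : EuclideanSpace ℝ κ → EuclideanSpace ℝ κ) :
    Prop where
  diff : ContDiff ℝ 1 X
  comp : HasCompactSupport X
  sub : tsupport X ⊆ Ω
  le : ∀ x, ‖X x‖ ≤ 1

/-- the (De Giorgi) perimeter `P(E; Ω)` of `E` relative to the open set `Ω` -/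
noncomputable def perimeter (E Ω : Set (EuclideanSpace ℝ κ)) : ℝ≥0∞ :=
  ⨆ (X : EuclideanSpace ℝ κ → EuclideanSpace ℝ κ) (_ : Test Ω X),
    ENNReal.ofReal (∫ x in E, divergence X x)

/-- the area (Lebesgue measure in the hyperplane `a^⊥`) of the central section of `Ω` by `a^⊥` -/
noncomputable def sectionArea (Ω : Set (EuclideanSpace ℝ κ)) (a : EuclideanSpace ℝ κ) : ℝ≥0∞ :=
  areaIn (Submodule.span ℝ {a})ᗮ Ω

/-- some central hyperplane section has area at most `C P(E; Ω)` for every measurable `E ⊆ Ω` with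
`|E| = |Ω| / 2` -/
def HyperplaneBound (C : ℝ) (Ω : Set (EuclideanSpace ℝ κ)) : Prop :=
  ∃ a : EuclideanSpace ℝ κ, a ≠ 0 ∧ ∀ E : Set (EuclideanSpace ℝ κ), MeasurableSet E → E ⊆ Ω →
    volume E = volume Ω / 2 → sectionArea Ω a ≤ ENNReal.ofReal C * perimeter E Ω

/-- the perimeter is the one used in the proof -/
theorem perimeter_eq (E Ω : Set (EuclideanSpace ℝ κ)) :
    Pool.Agent.W695.KH.per E Ω = perimeter E Ω := by
  unfold perimeter Pool.Agent.W695.KH.per
  refine iSup_congr fun X => ?_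
  refine iSup_congr_Prop ⟨fun h => ⟨h.1, h.2.1, h.2.2.1, h.2.2.2⟩,
    fun h => ⟨h.diff, h.comp, h.sub, h.le⟩⟩ fun _ => rfl

end defs

/-! ### the blocks -/

theorem nrm_of {κ : Type} [Fintype κ] {N : EuclideanSpace ℝ κ → ℝ} (h : IsNorm N) :
    Pool.Agent.R751.MB.Nrm N := ⟨h.add_le, h.smul, h.pos⟩

theorem an_of {k : ℕ} {N : Euc k → ℝ} (h : Admissible k N) : Pool.Agent.R751.MB.AN k N := by
  cases h with
  | oneSymmetric _ _ hk hN hinv => exact .sym _ _ hk (nrm_of hN) hinv
  | matrices m l _ e N hm hl hlm hN hinv => exact .mat m l k e N hm hl hlm (nrm_of hN) hinv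
  | hermitian 𝕜 D ι Φ _ e N hD hΦ hN hinv =>
    exact .her 𝕜 D ι Φ k e N hD ⟨hΦ.herm, hΦ.surj, hΦ.iso⟩ (nrm_of hN) hinv

theorem var_eq {n : ℕ} {K : Set (Euc n)} (hK : IsCompact K) (hi : (interior K).Nonempty)
    {f : Euc n → ℝ} (hf : Continuous f) : ProbabilityTheory.variance f (unif K) =
      (∫ x, f x ^ 2 ∂(unif K)) - (∫ x, f x ∂(unif K)) ^ 2 := by
  have h0 : volume K ≠ 0 := Pool.Agent.R755.KF.vol_ne hi
  have hp : IsProbabilityMeasure (unif K) :=
    Pool.Agent.R754.KG.un_prob h0 hK.measure_lt_top.ne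
  have h2 : Integrable (fun x => f x ^ 2) (unif K) :=
    Pool.Agent.R754.KG.un_int h0 hK.isBounded (hf.pow 2)
  rw [ProbabilityTheory.variance_eq_sub
    ((memLp_two_iff_integrable_sq hf.aestronglyMeasurable).2 h2)]
  rfl

theorem ap_of {c₀ : ℝ} {n : ℕ} {B : Set (Euc n)} (h : PoincareBody c₀ B) :
    Pool.Agent.R751.MB.AP c₀ (Pool.Agent.R751.MB.ind B) := by
  obtain ⟨A, h1, h2⟩ := h.ineq
  have hm := h.comp.measurableSet
  have hAc : Continuous A := A.toLinearMap.continuous_of_finiteDimensional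
  refine ⟨Pool.Agent.W5h33.KL.adm_body h.comp h.int, A.toContinuousLinearEquiv, fun θ => ?_,
    fun f hf hb hl => ?_⟩
  · have h3 := h1 θ
    rw [var_eq h.comp h.int (by fun_prop)] at h3
    exact (Pool.Agent.R754.KG.VW_ind hm _).trans h3
  · have h3 := h2 f hf hb hl
    rw [var_eq h.comp h.int (f := fun x => f (A x)) (hf.continuous.comp hAc)] at h3
    have h4 := Pool.Agent.R754.KG.VW_ind hm fun x => f (A x)
    have h5 := Pool.Agent.R754.KG.EW_ind hm fun x => ‖fderiv ℝ f (A x)‖ ^ 2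
    refine le_trans (le_of_eq h4) (h3.trans (le_of_eq ?_))
    exact congrArg (c₀ * ·) h5.symm

theorem fam_conv {k : ℕ} {F : ℝ → Set (Euc k)} (h : EvenFamily F) (s s' a b : ℝ) (ha : 0 ≤ a)
    (hb : 0 ≤ b) (hab : a + b = 1) (x : Euc k) (hx : x ∈ F s) (y : Euc k) (hy : y ∈ F s') :
    a • x + b • y ∈ F (a * s + b * s') :=
  h.conv (x := (x, s)) hx (y := (y, s')) hy ha hb hab

theorem fam_even {k : ℕ} {F : ℝ → Set (Euc k)} (h : EvenFamily F) (s : ℝ) (x : Euc k)
    (hx : x ∈ F s) : x ∈ F (-s) := by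
  rw [h.even]
  exact hx

theorem hf_eq {k : ℕ} (B : Set (Euc k)) (I : Set ℝ) (g : ℝ → ℝ) :
    (fun s => {x | s ∈ I ∧ ∃ y ∈ B, x = g s • y}) = Pool.Agent.W5h33.KL.hf I g B := by
  funext s
  ext x
  constructor
  · rintro ⟨h1, y, h2, h3⟩
    exact ⟨h1, y, h2, h3.symm⟩
  · rintro ⟨h1, y, h2, h3⟩
    exact ⟨h1, y, h2, h3.symm⟩

/-- all families have the properties which are used in the proof -/
theorem block_fd (c₀ : ℝ) : ∃ A Q : ℝ, 0 < A ∧ 0 < Q ∧ ∀ (k : ℕ) (F : ℝ → Set (Euc k)),
    Block c₀ F → Pool.Agent.W5h33.KL.FD A Q F := by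
  obtain ⟨A1, Q1, hA1, hQ1, H1⟩ := Pool.Agent.W5h33.KL.sym_fd Pool.Agent.R751.MB.pSYM
    (Pool.Agent.Y252.PV.M4.m4 Pool.Agent.Y625.PV.lev)
  obtain ⟨A2, hA2, H2⟩ := Pool.Agent.W5h33.KL.an_ap Pool.Agent.R751.MB.pSYM
    Pool.Agent.R751.MB.pMAT Pool.Agent.R751.MB.pHER
  obtain ⟨A, hA⟩ : ∃ A, A = max A1 (max A2 c₀) := ⟨_, rfl⟩
  obtain ⟨Q, hQ⟩ : ∃ Q, Q = max Q1 (max 4 c₀) := ⟨_, rfl⟩
  have a1 : A1 ≤ A := by rw [hA]; exact le_max_left _ _
  have a2 : A2 ≤ A := by rw [hA]; exact (le_max_left _ _).trans (le_max_right _ _)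
  have a3 : c₀ ≤ A := by rw [hA]; exact (le_max_right _ _).trans (le_max_right _ _)
  have q1 : Q1 ≤ Q := by rw [hQ]; exact le_max_left _ _
  have q2 : 4 ≤ Q := by rw [hQ]; exact (le_max_left _ _).trans (le_max_right _ _)
  have q3 : c₀ ≤ Q := by rw [hQ]; exact (le_max_right _ _).trans (le_max_right _ _)
  refine ⟨A, Q, lt_of_lt_of_le hA1 a1, lt_of_lt_of_le hQ1 q1, fun k F hF => ?_⟩
  cases hF with
  | @slab I hI hI2 =>
    refine (H1 0 _ (fun s => ?_) (fun s s' a b ha hb hab x hx y hy => ?_) (fun s x hx => hI2 s hx)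
      fun s σ x y hxy hx => hx).mono (fun w h => h.mono a1) q1
    · exact (Set.toFinite _).isCompact
    · exact hI hx hy ha hb hab
  | @norm _ M I g hM hI hg =>
    obtain ⟨b1, b2, b3, b4⟩ :=
      Pool.Agent.W5h33.KL.ball_body (Pool.Agent.R751.MB.AN.basic (an_of hM)).1
    have h1 := Pool.Agent.W5h33.KL.hom_fd (I := I) (g := g) (fun s hs => (hI s hs).1) hg
      (fun s hs => (hI s hs).2.1) (fun s hs => (hI s hs).2.2) b1 b2 b3 b4 (H2 k M (an_of hM))
    rw [← hf_eq] at h1
    exact h1.mono (fun w h => h.mono a2) q2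
  | @homothetic _ B I g hB hs hI hg =>
    have h1 := Pool.Agent.W5h33.KL.hom_fd (I := I) (g := g) (fun s hs => (hI s hs).1) hg
      (fun s hs => (hI s hs).2.1) (fun s hs => (hI s hs).2.2) hB.comp hB.conv hB.int hs (ap_of hB)
    rw [← hf_eq] at h1
    exact h1.mono (fun w h => h.mono a3) q2
  | oneSymmetric hF hinv =>
    exact (H1 k F hF.comp (fam_conv hF) (fam_even hF) hinv).mono (fun w h => h.mono a1) q1
  | comparable hF hP hC =>
    have h1 : Pool.Agent.W5h33.KL.FD c₀ c₀ F := by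
      refine ⟨hF.comp, fam_conv hF, fam_even hF, hF.symm, fun s hs => ap_of (hP s hs),
        fun S s s' h1 h2 h3 h4 L => ?_⟩
      obtain ⟨u, hu⟩ : ∃ u : Euc k, ∀ x, L x = ⟪x, u⟫_ℝ := by
        refine ⟨(InnerProductSpace.toDual ℝ (Euc k)).symm (LinearMap.toContinuousLinearMap L),
          fun x => ?_⟩
        rw [real_inner_comm, InnerProductSpace.toDual_symm_apply]
        rfl
      simp only [hu]
      exact hC S s s' h1 h2 h3 h4 u
    exact h1.mono (fun w h => h.mono a3) q3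

/-- the bodies belong to the class of the starting result `CentredFibrations` -/
theorem ridge_ct (c₀ : ℝ) (q : ℕ) : ∃ (A : ℝ → ℝ) (Q : ℝ), 0 < Q ∧ ∀ (r h n : ℕ) (K : Set (Euc n)),
    Ridge c₀ q r h K → Pool.Agent.R755.KS.Ct A Q r r (h + 1) n K := by
  obtain ⟨A0, Q0, hA0, hQ0, H0⟩ := block_fd c₀
  obtain ⟨A, H⟩ := Pool.Agent.W5h33.KL.rb_ct q A0 Q0 hA0 hQ0.le
  refine ⟨A, 2 * Q0, by positivity, fun r h n K hK => ?_⟩
  induction hK with
  | base hK =>
    obtain ⟨h1, h2, N, m, k, e, v, F, hN, hF, rfl⟩ := hK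
    exact H r r _ N m k e v F hN (fun i => H0 _ _ (hF i)) h1 h2
  | up _ ih => exact .up _ _ _ ih
  | image T w hm hT _ ih => exact .image _ _ _ _ T w hm hT ih
  | lift T hm hT hb _ ih => exact .lift _ _ _ _ T hm hT hb.comp hb.conv hb.int ih
  | fibred e hj hb _ ih => exact .fibred _ _ _ _ _ e hj hb.comp hb.conv hb.int ih

/-- **The hyperplane conjecture for bodies fibred over few ridge functions.** For all `c₀`, `q`,
`r` and `h` there is a constant `C > 0` such that for all `n ≥ 1` and all symmetric bodies `K ⊂ ℝⁿ` of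
the class `Ridge c₀ q r h`, the interior `Ω` of `K` has a central hyperplane section `Ω ∩ a^⊥` with
`H_{n-1}(Ω ∩ a^⊥) ≤ C P(E; Ω)` for every measurable `E ⊆ Ω` with `|E| = |Ω| / 2`. -/
theorem result : ∀ (c₀ : ℝ) (q r h : ℕ), ∃ C : ℝ, 0 < C ∧
    ∀ (n : ℕ) (K : Set (Euc n)), 1 ≤ n → Ridge c₀ q r h K → (∀ x ∈ K, -x ∈ K) →
    HyperplaneBound C (interior K) := by
  intro c₀ q r h
  obtain ⟨A, Q, hQ, H0⟩ := ridge_ct c₀ q
  obtain ⟨c, hc, H⟩ := Pool.Agent.R755.KS.ctR A Q hQ r r (h + 1)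
  obtain ⟨C, hC, H'⟩ := Pool.Agent.Y151.PV.hyp
  refine ⟨C * c, by positivity, fun n P hn hK hs => ?_⟩
  obtain ⟨h1, h2, h3, h4⟩ := H n P (H0 r h n P hK)
  have hcl : closure (interior P) = P := by
    rw [h2.closure_interior_eq_closure_of_nonempty_interior h3, h1.isClosed.closure_eq]
  have hsi : ∀ x ∈ interior P, -x ∈ interior P := by
    intro x hx
    have hop : IsOpen ((fun y => -y) ⁻¹' interior P) := isOpen_interior.preimage continuous_neg
    have hsub : (fun y => -y) ⁻¹' interior P ⊆ P := by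
      intro y hy
      have := hs _ (interior_subset hy)
      rwa [neg_neg] at this
    exact interior_maximal hsub hop (by simpa using hx)
  have h0 : (0 : Euc n) ∈ interior P := by
    obtain ⟨x, hx⟩ := h3
    have h := h2.interior hx (hsi x hx) (by norm_num : (0 : ℝ) ≤ 1 / 2)
      (by norm_num : (0 : ℝ) ≤ 1 / 2) (by norm_num)
    rwa [smul_neg, add_neg_cancel] at h
  obtain ⟨a, ha, h⟩ := H' n hn (interior P) isOpen_interior h2.interior
    (h1.isBounded.subset interior_subset) h0 hsi c hc (by rw [hcl]; exact h4)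
  refine ⟨a, ha, fun E hE hEΩ hvol => ?_⟩
  rw [← perimeter_eq]
  by_cases hp : Pool.Agent.W695.KH.per E (interior P) = ⊤
  · rw [hp, ENNReal.mul_top (ENNReal.ofReal_pos.2 (by positivity)).ne']
    exact le_top
  · refine (h E hE hEΩ hvol _ (Pool.Agent.W695.KH.perLe_toReal E _ hp)).trans (le_of_eq ?_)
    rw [ENNReal.ofReal_mul (by positivity), ENNReal.ofReal_toReal hp]

end Pool.Agent.Results.MP_dc1397_gt.RidgeFibrations
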