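import Pool.Agent.W5h44.DS.Exq

/-!
# The hyperplane form of the KLS conjecture for unconditional sums of arbitrarily many bodies

Q1 for the bodies `{(x_1, …, x_b) | (‖x_1‖_{K_1}, …, ‖x_b‖_{K_b}) ∈ D} ⊂ ℝ^{m_1} × ⋯ × ℝ^{m_b}`, and for
their images under linear maps with kernels of bounded dimension. Here **the number `b` and the
dimensions `m_i` are arbitrary**, `D ⊂ ℝ^b` is an arbitrary unconditional convex body, and `K_i ⊂ ℝ^{m_i}`
are arbitrary symmetric convex bodies which satisfy the Poincare inequality with constant `c₀` in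
isotropic position, or unit balls of norms with many symmetries (1-symmetric norms, norms on real
matrices which are functions of `XᵀX`, norms on symmetric or Hermitian matrices which are invariant under
conjugation). The inequality holds with the constant `C √c₀ (1 + t)`, `C` absolute (dependent only on
the dimension `q` of the kernel), whenever `∑ exp(-t m_i) ≤ 1`. So

* with `C √c₀`, when `m_i ≥ log b` for all `i` (theorem `large_blocks`), whatever `b` and `D` are;
* with `C √c₀ (1 + log b)`, for all `b`, `m_i`, `D` (theorem `all_sums`); for `K_i = [-1, 1]` these are the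
  unconditional bodies and the bound `C (1 + log n)` is that of Klartag (2009).

So the hyperplane form of the conjecture for the summands implies it for unconditional sums of any number
of summands whose dimensions are at least logarithmic in this number.

Known before: the starting file `CompositeBodies` contains the case of a bounded number `b` of bodies
(with a constant which depends on `b` and `c₀` in an unspecified way), `RadialBlocks` contains the case
in which all `K_i` are Euclidean balls, with the same dependence on `t`.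

Method. By polar coordinates, a random point `x` of the body has the blocks `x_i = ‖z_i‖ y_i / (r_i ‖y_i‖_{K_i})`,
where `z` is a random point of the `D`-sum of the Euclidean balls of radii `r_i` and the `y_i` are
independent random points of the bodies `K_i`. Let `f` be a Lipschitz function of a linear image of `x`.
(1) For given `z`, the variance of `f` is, by the Efron-Stein inequality, at most the sum of the variances in
the single directions. The section of the body by the block `i`, the other blocks being fixed, is a dilate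
`ρ K_i`; the variance in the direction is at most the variance for the uniform distribution on
`ρ K_i`, to which the Poincare inequality of `K_i` applies, in the affinely invariant form
`Var f ≤ A ∫∫ (D f(x) y)² dy dx`. The sum of these energies is controlled by the covariance of
the body, as long as `ρ²` is at most a multiple of the ratio of the second moments of `x_i` and of `y_i`.
(2) The sets where `ρ` is larger have total measure at most a multiple of
`∑ exp(-t m_i - r)`: half of the volume of `ρ K_i` is near its boundary, and `‖x_i‖_{K_i}` is concentrated,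
its density being `u^(m_i - 1)` times a log-concave function. (3) The mean of `f` for given `z` is a
Lipschitz function of `z`, for the Euclidean distance, when the radii `r_i` are chosen such that `z` is
isotropic; it is controlled by the weak Poincare inequality for rotation invariant measures on
`∏ ℝ^{m_i}` of the modules `TH610.RB`. (4) From the concentration of all linear images to the
isoperimetric inequality for sets of measure one half, and to projections: modules `Y506.PV` of the
file `ImagesOfSections`, `R751.MB` of `CompositeBodies`.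
-/

set_option autoImplicit false

namespace Pool.Agent.Results.MP_dc1397_gt.UnconditionalSums

open MeasureTheory Set
open scoped ENNReal InnerProductSpace Pointwise

/-- Euclidean space of dimension `n` -/
abbrev Euc (n : ℕ) : Type := EuclideanSpace ℝ (Fin n)

/-- real `m × l` matrices, with the Euclidean structure of `ℝ^(ml)` -/
abbrev Mat (m l : ℕ) : Type := EuclideanSpace ℝ (Fin m × Fin l)

/-- norms -/
structure IsNorm {κ : Type} [Fintype κ] (N : EuclideanSpace ℝ κ → ℝ) : Prop where
  add_le : ∀ x y, N (x + y) ≤ N x + N y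
  smul : ∀ (r : ℝ) (x : EuclideanSpace ℝ κ), N (r • x) = |r| * N x
  pos : ∀ x, x ≠ 0 → 0 < N x

/-- `N` does not change when coordinates are permuted or change their signs -/
def OneSymmetric {k : ℕ} (N : Euc k → ℝ) : Prop :=
  ∀ σ : Equiv.Perm (Fin k), ∀ x y : Euc k, (∀ i, |y i| = |x (σ i)|) → N y = N x

/-- `N (g X) = N X` for all orthogonal matrices `g` -/
def LeftInvariant {m l : ℕ} (N : Mat m l → ℝ) : Prop :=
  ∀ g ∈ Matrix.orthogonalGroup (Fin m) ℝ, ∀ X : Mat m l,
    N (WithLp.toLp 2 fun p => ∑ k, g p.1 k * X (k, p.2)) = N X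

/-- `Φ` is a linear isometric parametrisation of the Hermitian `D × D` matrices over `𝕜` (`ℝ` or `ℂ`),
with the Hilbert-Schmidt norm, by `ℝ^ι` -/
structure HermFrame {𝕜 : Type} [RCLike 𝕜] {D : ℕ} {ι : Type} [Fintype ι]
    (Φ : EuclideanSpace ℝ ι →ₗ[ℝ] Matrix (Fin D) (Fin D) 𝕜) : Prop where
  herm : ∀ x, (Φ x).conjTranspose = Φ x
  surj : ∀ A : Matrix (Fin D) (Fin D) 𝕜, A.conjTranspose = A → ∃ x, Φ x = A
  iso : ∀ x, ∑ i, ∑ j, ‖Φ x i j‖ ^ 2 = ‖x‖ ^ 2

/-- `N` does not change when the matrix `Φ x` is conjugated by a unitary matrix -/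
def ConjInvariant {𝕜 : Type} [RCLike 𝕜] {D : ℕ} {ι : Type} [Fintype ι]
    (Φ : EuclideanSpace ℝ ι →ₗ[ℝ] Matrix (Fin D) (Fin D) 𝕜) (N : EuclideanSpace ℝ ι → ℝ) : Prop :=
  ∀ U ∈ Matrix.unitaryGroup (Fin D) 𝕜, ∀ x y : EuclideanSpace ℝ ι,
    Φ y = U * Φ x * U.conjTranspose → N y = N x

/-- The norms on `ℝ^k` which are admitted: 1-symmetric norms, and, in any linear coordinates, left
invariant norms on `m × l` matrices, `1 ≤ l ≤ m`, `3 ≤ m`, and conjugation invariant norms on Hermitian
matrices of order at least 3. -/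
inductive Admissible : ∀ k : ℕ, (Euc k → ℝ) → Prop
  | oneSymmetric (k : ℕ) (N : Euc k → ℝ) : 1 ≤ k → IsNorm N → OneSymmetric N → Admissible k N
  | matrices (m l k : ℕ) (e : Mat m l ≃ₗ[ℝ] Euc k) (N : Mat m l → ℝ) : 3 ≤ m → 1 ≤ l → l ≤ m →
      IsNorm N → LeftInvariant N → Admissible k fun z => N (e.symm z)
  | hermitian (𝕜 : Type) [RCLike 𝕜] (D : ℕ) (ι : Type) [Fintype ι]
      (Φ : EuclideanSpace ℝ ι →ₗ[ℝ] Matrix (Fin D) (Fin D) 𝕜) (k : ℕ)
      (e : EuclideanSpace ℝ ι ≃ₗ[ℝ] Euc k) (N : EuclideanSpace ℝ ι → ℝ) : 3 ≤ D → HermFrame Φ →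
      IsNorm N → ConjInvariant Φ N → Admissible k fun z => N (e.symm z)

/-- convex bodies: compact, convex, with nonempty interior -/
structure IsBody {κ : Type} [Fintype κ] (K : Set (EuclideanSpace ℝ κ)) : Prop where
  comp : IsCompact K
  conv : Convex ℝ K
  int : (interior K).Nonempty

/-- the uniform probability measure on `K` -/
noncomputable def unif {m : ℕ} (K : Set (Euc m)) : Measure (Euc m) :=
  (volume K)⁻¹ • volume.restrict K

/-- convex bodies which satisfy the Poincaré inequality `Var f ≤ c₀ E ‖∇ f‖²`, for all `C¹` functions,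
in isotropic position: after some linear bijection `A` which makes all variances of the coordinates
in directions of length one equal to one -/
structure PoincareBody (c₀ : ℝ) {N : ℕ} (C : Set (Euc N)) : Prop extends IsBody C where
  ineq : ∃ A : Euc N ≃ₗ[ℝ] Euc N,
    (∀ θ : Euc N, ProbabilityTheory.variance (fun x => ⟪A x, θ⟫_ℝ) (unif C) = ‖θ‖ ^ 2) ∧
    ∀ f : Euc N → ℝ, ContDiff ℝ 1 f → ProbabilityTheory.variance (fun x => f (A x)) (unif C) ≤
      c₀ * ∫ x, ‖fderiv ℝ f (A x)‖ ^ 2 ∂(unif C)

/-- unconditional convex bodies `D ⊂ ℝ^b` -/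
structure Unconditional {b : ℕ} (D : Set (Euc b)) : Prop extends IsBody D where
  unc : ∀ t ∈ D, ∀ s : Euc b, (∀ i, |s i| ≤ |t i|) → s ∈ D

/-- The `D`-sum `{x | x_i ∈ t_i K_i for all i, for some t ∈ D}` of the sets `K_i`; for symmetric convex
bodies `K_i` and unconditional `D` it is `{x | (‖x_i‖_{K_i})_i ∈ D}`. -/
def dSum {b : ℕ} {m : Fin b → ℕ} (D : Set (Euc b)) (K : ∀ i, Set (Euc (m i))) :
    Set (∀ i, Euc (m i)) := {x | ∃ t ∈ D, ∀ i, x i ∈ t i • K i}

/-- the blocks: convex bodies which satisfy the Poincaré inequality with constant `c₀` in isotropic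
position, and unit balls of admissible norms -/
inductive Block (c₀ : ℝ) {k : ℕ} (K : Set (Euc k)) : Prop
  | poincare : PoincareBody c₀ K → Block c₀ K
  | unitBall (N : Euc k → ℝ) : Admissible k N → K = {x | N x ≤ 1} → Block c₀ K

/-- the Lebesgue measure of a Euclidean space -/
noncomputable def lebesgue (F : Type) [NormedAddCommGroup F] [InnerProductSpace ℝ F]
    [FiniteDimensional ℝ F] [MeasurableSpace F] [BorelSpace F] : Measure F := volume

/-- the Lebesgue measure (of the Euclidean space `W`) of the section `Ω ∩ W` by a subspace `W` -/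
noncomputable def areaIn {F : Type} [NormedAddCommGroup F] [InnerProductSpace ℝ F]
    [FiniteDimensional ℝ F] [MeasurableSpace F] [BorelSpace F] (W : Submodule ℝ F) (Ω : Set F) :
    ℝ≥0∞ := lebesgue W {y : W | (y : F) ∈ Ω}

section defs

variable {κ : Type} [Fintype κ]

open Classical in
/-- divergence of a vector field on `ℝ^κ` -/
noncomputable def divergence (X : EuclideanSpace ℝ κ → EuclideanSpace ℝ κ)
    (x : EuclideanSpace ℝ κ) : ℝ :=
  ∑ i, fderiv ℝ X x (EuclideanSpace.single i 1) i

/-- `C¹` vector fields with compact support in `Ω` and `‖X‖ ≤ 1` -/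
structure Test (Ω : Set (EuclideanSpace ℝ κ)) (X : EuclideanSpace ℝ κ → EuclideanSpace ℝ κ) :
    Prop where
  diff : ContDiff ℝ 1 X
  comp : HasCompactSupport X
  sub : tsupport X ⊆ Ω
  le : ∀ x, ‖X x‖ ≤ 1

/-- the (De Giorgi) perimeter `P(E; Ω)` of `E` relative to the open set `Ω` -/
noncomputable def perimeter (E Ω : Set (EuclideanSpace ℝ κ)) : ℝ≥0∞ :=
  ⨆ (X : EuclideanSpace ℝ κ → EuclideanSpace ℝ κ) (_ : Test Ω X),
    ENNReal.ofReal (∫ x in E, divergence X x)

/-- the area (Lebesgue measure in the hyperplane `a^⊥`) of the central section of `Ω` by `a^⊥` -/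
noncomputable def sectionArea (Ω : Set (EuclideanSpace ℝ κ)) (a : EuclideanSpace ℝ κ) : ℝ≥0∞ :=
  areaIn (Submodule.span ℝ {a})ᗮ Ω

/-- some central hyperplane section has area at most `C P(E; Ω)` for every measurable `E ⊆ Ω` with
`|E| = |Ω| / 2` -/
def HyperplaneBound (C : ℝ) (Ω : Set (EuclideanSpace ℝ κ)) : Prop :=
  ∃ a : EuclideanSpace ℝ κ, a ≠ 0 ∧ ∀ E : Set (EuclideanSpace ℝ κ), MeasurableSet E → E ⊆ Ω →
    volume E = volume Ω / 2 → sectionArea Ω a ≤ ENNReal.ofReal C * perimeter E Ω

/-- the perimeter is the one used in the proof -/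
theorem perimeter_eq (E Ω : Set (EuclideanSpace ℝ κ)) :
    Pool.Agent.W695.KH.per E Ω = perimeter E Ω := by
  unfold perimeter Pool.Agent.W695.KH.per
  refine iSup_congr fun X => ?_
  refine iSup_congr_Prop ⟨fun h => ⟨h.1, h.2.1, h.2.2.1, h.2.2.2⟩,
    fun h => ⟨h.diff, h.comp, h.sub, h.le⟩⟩ fun _ => rfl

end defs

theorem nrm_of {κ : Type} [Fintype κ] {N : EuclideanSpace ℝ κ → ℝ} (h : IsNorm N) :
    Pool.Agent.R751.MB.Nrm N := ⟨h.add_le, h.smul, h.pos⟩

theorem an_of {k : ℕ} {N : Euc k → ℝ} (h : Admissible k N) : Pool.Agent.R751.MB.AN k N := by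
  cases h with
  | oneSymmetric _ _ hk hN hinv => exact .sym _ _ hk (nrm_of hN) hinv
  | matrices m l _ e N hm hl hlm hN hinv => exact .mat m l k e N hm hl hlm (nrm_of hN) hinv
  | hermitian 𝕜 D ι Φ _ e N hD hΦ hN hinv =>
    exact .her 𝕜 D ι Φ k e N hD ⟨hΦ.herm, hΦ.surj, hΦ.iso⟩ (nrm_of hN) hinv

theorem var_eq {n : ℕ} {K : Set (Euc n)} (hK : IsCompact K) (hi : (interior K).Nonempty)
    {f : Euc n → ℝ} (hf : Continuous f) : ProbabilityTheory.variance f (unif K) =
      (∫ x, f x ^ 2 ∂(unif K)) - (∫ x, f x ∂(unif K)) ^ 2 := by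
  have h0 : volume K ≠ 0 := Pool.Agent.R755.KF.vol_ne hi
  have hp : IsProbabilityMeasure (unif K) :=
    Pool.Agent.R754.KG.un_prob h0 hK.measure_lt_top.ne
  have h2 : Integrable (fun x => f x ^ 2) (unif K) :=
    Pool.Agent.R754.KG.un_int h0 hK.isBounded (hf.pow 2)
  rw [ProbabilityTheory.variance_eq_sub
    ((memLp_two_iff_integrable_sq hf.aestronglyMeasurable).2 h2)]
  rfl

theorem pi_of {c₀ : ℝ} {N : ℕ} {C : Set (Euc N)} (h : PoincareBody c₀ C) :
    Pool.Agent.R755.KF.PI c₀ C := by
  obtain ⟨A, h1, h2⟩ := h.ineq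
  have hAc : Continuous A := A.toLinearMap.continuous_of_finiteDimensional
  refine ⟨h.comp, h.conv, h.int, A, fun θ => ?_, fun f hf => ?_⟩
  · have h3 := h1 θ
    rw [var_eq h.comp h.int (by fun_prop)] at h3
    exact h3
  · have h3 := h2 f hf
    rw [var_eq h.comp h.int (f := fun x => f (A x)) (hf.continuous.comp hAc)] at h3
    exact h3

theorem body_of {κ : Type} [Fintype κ] {K : Set (EuclideanSpace ℝ κ)} (h : IsBody K) :
    Pool.Agent.R751.MB.Body K := ⟨h.comp, h.conv, h.int⟩

theorem bk_of {c₀ : ℝ} {k : ℕ} {K : Set (Euc k)} (h : Block c₀ K) :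
    Pool.Agent.W5h44.DS.Bk c₀ K := by
  cases h with
  | poincare hK => exact Or.inl (pi_of hK)
  | unitBall N hN hK => exact Or.inr ⟨N, an_of hN, hK⟩

theorem finrank_eq {b : ℕ} (m : Fin b → ℕ) :
    Module.finrank ℝ (∀ i, Euc (m i)) = Module.finrank ℝ (Euc (∑ i, m i)) := by
  rw [Module.finrank_pi_fintype, finrank_euclideanSpace_fin]
  exact Finset.sum_congr rfl fun i _ => finrank_euclideanSpace_fin

/-- **The hyperplane conjecture for unconditional sums of arbitrarily many symmetric bodies.** For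
every `q` there is a constant `C > 0` such that the following holds for all `c₀ ≥ 1`, `t ≥ 0`, all
numbers `b`, all dimensions `n, m_1, …, m_b ≥ 1` with `∑ exp(-t m_i) ≤ 1`, all unconditional convex
bodies `D ⊂ ℝ^b`, all symmetric convex bodies `K_i ⊂ ℝ^{m_i}` which satisfy the Poincare inequality with
constant `c₀` in isotropic position or are unit balls of admissible norms, and all surjective linear
maps `T : ℝ^{m_1} × ⋯ × ℝ^{m_b} → ℝ^n` with kernels of dimension at most `q`. The interior `Ω` of the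
image under `T` of `{x | (‖x_i‖_{K_i})_i ∈ D}` has a central hyperplane section `Ω ∩ a^⊥` with
`H_{n-1}(Ω ∩ a^⊥) ≤ C √c₀ (1 + t) P(E; Ω)` for every measurable `E ⊆ Ω` with `|E| = |Ω| / 2`. -/
theorem result : ∀ q : ℕ, ∃ C : ℝ, 0 < C ∧
    ∀ (c₀ t : ℝ) (b n : ℕ) (m : Fin b → ℕ) (T : (∀ i, Euc (m i)) →ₗ[ℝ] Euc n) (D : Set (Euc b))
      (K : ∀ i, Set (Euc (m i))), 1 ≤ c₀ → 0 ≤ t → 1 ≤ n → (∀ i, 1 ≤ m i) →
      ∑ i, Real.exp (-(t * m i)) ≤ 1 → ∑ i, m i ≤ n + q → Function.Surjective T →
      Unconditional D → (∀ i, ∀ x ∈ K i, -x ∈ K i) → (∀ i, Block c₀ (K i)) →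
      HyperplaneBound (C * (Real.sqrt c₀ * (1 + t))) (interior (T '' dSum D K)) := by
  intro q
  obtain ⟨c, hc, H⟩ := Pool.Agent.W5h44.DS.star_many q
  obtain ⟨C, hC, H'⟩ := Pool.Agent.Y151.PV.hyp
  refine ⟨C * c, by positivity, fun c₀ t b n m T D K hc₀ ht0 hn hm ht hq hT hD hs hK => ?_⟩
  have hct : 0 < Real.sqrt c₀ * (1 + t) := mul_pos (Real.sqrt_pos.2 (by linarith)) (by linarith)
  obtain ⟨e⟩ : Nonempty ((∀ i, Euc (m i)) ≃ₗ[ℝ] Euc (∑ i, m i)) := by
    exact ⟨LinearEquiv.ofFinrankEq _ _ (finrank_eq m)⟩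
  have himg : T '' dSum D K = (T ∘ₗ e.symm.toLinearMap) '' (e '' dSum D K) := by
    rw [image_image]
    refine image_congr fun x _ => ?_
    simp
  obtain ⟨P, hPe⟩ : ∃ P, P = T '' dSum D K := ⟨_, rfl⟩
  obtain ⟨h1, h2, h3, h4⟩ := H c₀ t hc₀ ht0 b n (∑ i, m i) m e D K (T ∘ₗ e.symm.toLinearMap) hq
    (by
      intro y
      obtain ⟨x, hx⟩ := hT y
      exact ⟨e x, by simpa using hx⟩) hm ⟨body_of hD.toIsBody, hD.unc⟩ hs
    (fun i => bk_of (hK i)) ht
  have himg' : (T ∘ₗ e.symm.toLinearMap) '' (e '' Pool.Agent.R751.MB.dsum D K) = P := by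
    rw [hPe, himg]
    rfl
  rw [himg'] at h1 h2 h3 h4
  rw [← hPe]
  have hsy : ∀ x ∈ P, -x ∈ P := by
    rw [hPe]
    rintro _ ⟨x, ⟨τ, hτ, hx⟩, rfl⟩
    refine ⟨-x, ⟨τ, hτ, fun i => ?_⟩, map_neg T x⟩
    obtain ⟨y, hy, hxy⟩ := hx i
    refine ⟨-y, hs i y hy, ?_⟩
    rw [Pi.neg_apply, ← hxy]
    exact smul_neg _ _
  have hcl : closure (interior P) = P := by
    rw [h2.closure_interior_eq_closure_of_nonempty_interior h3, h1.isClosed.closure_eq]
  have hsi : ∀ x ∈ interior P, -x ∈ interior P := by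
    intro x hx
    have hop : IsOpen ((fun y => -y) ⁻¹' interior P) := isOpen_interior.preimage continuous_neg
    have hsub : (fun y => -y) ⁻¹' interior P ⊆ P := by
      intro y hy
      have := hsy _ (interior_subset hy)
      rwa [neg_neg] at this
    exact interior_maximal hsub hop (by simpa using hx)
  have h0 : (0 : Euc n) ∈ interior P := by
    obtain ⟨x, hx⟩ := h3
    have h := h2.interior hx (hsi x hx) (by norm_num : (0 : ℝ) ≤ 1 / 2)
      (by norm_num : (0 : ℝ) ≤ 1 / 2) (by norm_num)
    rwa [smul_neg, add_neg_cancel] at h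
  obtain ⟨a, ha, h⟩ := H' n hn (interior P) isOpen_interior h2.interior
    (h1.isBounded.subset interior_subset) h0 hsi (c * (Real.sqrt c₀ * (1 + t))) (by positivity)
    (by rw [hcl]; exact h4)
  refine ⟨a, ha, fun E hE hEΩ hvol => ?_⟩
  rw [← perimeter_eq]
  by_cases hp : Pool.Agent.W695.KH.per E (interior P) = ⊤
  · rw [hp, ENNReal.mul_top (ENNReal.ofReal_pos.2 (by positivity)).ne']
    exact le_top
  · refine (h E hE hEΩ hvol _ (Pool.Agent.W695.KH.perLe_toReal E _ hp)).trans (le_of_eq ?_)
    rw [← mul_assoc C c, ENNReal.ofReal_mul (by positivity), ENNReal.ofReal_toReal hp]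

/-! ### special cases -/

theorem sum_exp_le {b : ℕ} {m : Fin b → ℕ} {t : ℝ} (h : ∀ i, Real.log b ≤ t * m i) :
    ∑ i, Real.exp (-(t * m i)) ≤ 1 := by
  rcases Nat.eq_zero_or_pos b with rfl | hb
  · simp
  have hb' : (0 : ℝ) < b := by exact_mod_cast hb
  calc ∑ i, Real.exp (-(t * m i)) ≤ ∑ _i : Fin b, (b : ℝ)⁻¹ := by
        refine Finset.sum_le_sum fun i _ => ?_
        rw [← Real.exp_log (inv_pos.2 hb'), Real.exp_le_exp, Real.log_inv]
        linarith [h i]
    _ = 1 := by
        rw [Finset.sum_const, Finset.card_univ, Fintype.card_fin, nsmul_eq_mul,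
          mul_inv_cancel₀ hb'.ne']

theorem HyperplaneBound.mono {κ : Type} [Fintype κ] {C C' : ℝ} {Ω : Set (EuclideanSpace ℝ κ)}
    (hC : C ≤ C') (h : HyperplaneBound C Ω) : HyperplaneBound C' Ω := by
  obtain ⟨a, ha, H⟩ := h
  exact ⟨a, ha, fun E h1 h2 h3 => (H E h1 h2 h3).trans
    (mul_le_mul_left (ENNReal.ofReal_le_ofReal hC) _)⟩

theorem sum_of_equiv {b n : ℕ} {m : Fin b → ℕ} (e : (∀ i, Euc (m i)) ≃ₗ[ℝ] Euc n) :
    ∑ i, m i = n := by
  have h1 := e.finrank_eq
  rw [finrank_eq, finrank_euclideanSpace_fin, finrank_euclideanSpace_fin] at h1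
  exact h1

/-- **Blocks whose dimensions are at least `log b`.** There is an absolute constant `C > 0` such that the
unconditional sums of any number `b` of symmetric convex bodies with the Poincare constant `c₀ ≥ 1`, of
dimensions `m_i ≥ log b`, satisfy the inequality with the constant `C √c₀`. -/
theorem large_blocks : ∃ C : ℝ, 0 < C ∧
    ∀ (c₀ : ℝ) (b n : ℕ) (m : Fin b → ℕ) (e : (∀ i, Euc (m i)) ≃ₗ[ℝ] Euc n) (D : Set (Euc b))
      (K : ∀ i, Set (Euc (m i))), 1 ≤ c₀ → 1 ≤ n → (∀ i, 1 ≤ m i) → (∀ i, Real.log b ≤ m i) →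
      Unconditional D → (∀ i, ∀ x ∈ K i, -x ∈ K i) → (∀ i, Block c₀ (K i)) →
      HyperplaneBound (C * Real.sqrt c₀) (interior (e '' dSum D K)) := by
  obtain ⟨C, hC, H⟩ := result 0
  refine ⟨C * 2, by positivity, fun c₀ b n m e D K hc₀ hn hm ht hD hs hK => ?_⟩
  refine HyperplaneBound.mono (le_of_eq ?_) (H c₀ 1 b n m e.toLinearMap D K hc₀ zero_le_one hn hm
    (sum_exp_le fun i => by rw [one_mul]; exact ht i) (sum_of_equiv e).le e.surjective hD hs hK)
  ring

/-- **All unconditional sums.** There is an absolute constant `C > 0` such that the unconditional sums of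
any number `b` of symmetric convex bodies with the Poincare constant `c₀ ≥ 1`, of any dimensions, satisfy
the inequality with the constant `C √c₀ (1 + log b)`. -/
theorem all_sums : ∃ C : ℝ, 0 < C ∧
    ∀ (c₀ : ℝ) (b n : ℕ) (m : Fin b → ℕ) (e : (∀ i, Euc (m i)) ≃ₗ[ℝ] Euc n) (D : Set (Euc b))
      (K : ∀ i, Set (Euc (m i))), 1 ≤ c₀ → 1 ≤ n → (∀ i, 1 ≤ m i) →
      Unconditional D → (∀ i, ∀ x ∈ K i, -x ∈ K i) → (∀ i, Block c₀ (K i)) →
      HyperplaneBound (C * (Real.sqrt c₀ * (1 + Real.log b))) (interior (e '' dSum D K)) := by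
  obtain ⟨C, hC, H⟩ := result 0
  refine ⟨C, by positivity, fun c₀ b n m e D K hc₀ hn hm hD hs hK => ?_⟩
  have hb : 1 ≤ b := by
    by_contra h
    obtain rfl : b = 0 := by omega
    have := sum_of_equiv e
    simp at this
    omega
  have hlog : 0 ≤ Real.log b := Real.log_nonneg (by exact_mod_cast hb)
  refine H c₀ (Real.log b) b n m e.toLinearMap D K hc₀ hlog hn hm (sum_exp_le fun i => ?_)
    (sum_of_equiv e).le e.surjective hD hs hK
  have : (1 : ℝ) ≤ m i := by exact_mod_cast hm i
  exact le_mul_of_one_le_right hlog this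

end Pool.Agent.Results.MP_dc1397_gt.UnconditionalSums
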