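import Pool.Agent.W5h33.KQ.Qu
import Pool.Agent.W5h33.KQ.Cyl
import Pool.Agent.W5h33.KL.An
import Pool.Agent.R751.MB.All
import Pool.Agent.Y151.PV.Hyp

/-!
# The hyperplane conjecture for arbitrarily many uniformly convex ridge constraints

Q1 for the symmetric bodies of a class which starts with the convex bodies
`K = {(x_1, …, x_N, t) | ‖x_i‖_i ^ p_i + ψ_i(Q_i t) ≤ 1 for i = 1, …, N} ⊂ ℝ^{k_1} × ⋯ × ℝ^{k_N} × ℝ^m`,
in any linear coordinates. Here the number `N` of the constraints and the dimensions `m`, `k_i`, `b_i` are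
arbitrary, `Q_i : ℝ^m → ℝ^{b_i}` are arbitrary linear maps, `‖·‖_i` is an admissible norm on `ℝ^{k_i}`
(1-symmetric norms, left invariant norms of matrices, unitarily invariant norms of Hermitian matrices), or the
norm of any symmetric convex body with the Poincaré inequality with constant `c₀` in isotropic position,
`p_i ≥ 1`, and `ψ_i` are even functions on `ℝ^{b_i}` which are uniformly convex and uniformly smooth:
`ψ_i(0) = 0`, and `ψ_i - |·|²` and `κ |·|² - ψ_i` are convex. For example `ψ_i = |·|²` for Euclidean norms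
`‖·‖_i`, `p_i = 2`: then `K` is the intersection of `N` cylinders `|x_i|² + |Q_i t|² ≤ 1`.
The only restriction is that the fibres are not too small: for every `i` with `Q_i ≠ 0`, either
`rank Q_i ≤ Γ (k_i / p_i - 1)`, with any constant `Γ`, or `k_i > 2 p_i` and
`6 κ b_i |Q_i t|² ≤ ∑_j (k_j / p_j) |Q_j t|²` for all `t`; the second condition allows constraints of large
rank with small fibres, if there are many constraints. The marginal of `K` on `ℝ^m` has the density
`∏ (1 - ψ_i(Q_i t))^{k_i / p_i}`. The class is closed under images and lifts whose kernels have dimension at most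
`r`, and under arbitrary fibrations over `ℝ^j`, `j ≤ r` (`Ridges`). The constant depends only on `c₀`, `κ`, `Γ`,
`r` and the number of these operations.
The second part is a special case without any of these notions: intersections of ellipsoidal
cylinders `{x ∈ ℝⁿ | |P_i x| ≤ 1, i = 1, …, N}`, that is, sections `E ∩ (B_2^{d_1} × ⋯ × B_2^{d_N})` of
products of Euclidean balls by subspaces `E` of any codimension, with
`rank P_i ≤ e_i + Γ (e_i - 2)`, `e_i = dim ⋂_{j ≠ i} ker P_j = dim (E ∩ ℝ^{d_i})` (subtraction of natural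
numbers); for instance `e_i ≥ 3` and `d_i ≤ Γ e_i`. The constant depends only on `Γ`.
(The result `RidgeFibrations` is about at most `m + q` constraints with general
profiles. With general profiles, arbitrarily many constraints would give all symmetric polytopes.)

Method. Let `w(t) = ∏ (1 - ψ_i(Q_i t))₊^{β_i}`, `β_i = k_i / p_i`, and let `T` be a linear bijection of
`ℝ^m` with `|T t|² = ∑ β_i |Q_i t|²`. (1) `w` is uniformly log-concave with respect to `|T t|²`, so the law of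
`T t` has a Poincaré inequality with a universal constant. (2) `E (1 - ψ_i(Q_i t))^{-2} ≤ (3 + Γ)²` and
`E (1 - ψ_i(Q_i t))² ≥ (3 + Γ)^{-2}` for every `i`. If `rank Q_i ≤ Γ (β_i - 1)`, this follows from the
inequality `(β - 1) ∫ h^{β - 2} ρ ≤ (d + β - 1) ∫ h^{β - 1} ρ` for `h = (1 - ψ_i)₊` and the marginals `ρ` on
`ℝ^d`, `d = rank Q_i`, of the product of the other factors (dilations, and the theorem of Prékopa and Leindler:
`ρ` decreases on rays). In the second case it follows from (1), applied to the weights with the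
exponents `β_i` and `β_i - 2`. (3) Therefore translations of length
`c / (κ (3 + Γ))` (after `T`) do not change `w` much in Hellinger distance: `∫ √(w(t + u) w(t - u)) ≥ (3/4) ∫ w` if
`289 κ² (3 + Γ)² |T u|² ≤ 1`; this and the Cauchy-Schwarz inequality (as in the inequality of Chapman, Robbins
and Hammersley) give `Var ⟪t, θ⟫ ≥ ⟪u, θ⟫²`. So all variances of `T t` are bounded from below, and the Poincaré
inequality holds in isotropic position with the constant `578 κ² (3 + Γ)²`, for all `N`. (4) The fibres are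
linear images of products of the bodies `B_i`, and they have the Poincaré inequality in isotropic position;
their covariances are at most `(3 + Γ)²` times the covariance of `K`, by (2). (5) So `K` is a centred
fibration in the sense of the starting result `CentredFibrations`, and the inequality follows.
-/

set_option autoImplicit false

namespace Pool.Agent.Results.MP_dc1397_gt.UniformRidges

open MeasureTheory Set
open scoped ENNReal InnerProductSpace

/-- Euclidean space of dimension `n` -/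
abbrev Euc (n : ℕ) : Type := EuclideanSpace ℝ (Fin n)

/-- the uniform probability measure on `K` -/
noncomputable def unif {n : ℕ} (K : Set (Euc n)) : Measure (Euc n) :=
  (volume K)⁻¹ • volume.restrict K

/-- convex bodies -/
structure Body {n : ℕ} (K : Set (Euc n)) : Prop where
  comp : IsCompact K
  conv : Convex ℝ K
  int : (interior K).Nonempty

/-- convex bodies with the Poincaré inequality `Var f ≤ c₀ E ‖∇ f‖²`, for bounded `C¹` functions with
bounded gradients, in isotropic position: after some linear bijection `A` which makes all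
variances in directions of length one equal to one -/
structure PoincareBody (c₀ : ℝ) {n : ℕ} (B : Set (Euc n)) : Prop extends Body B where
  ineq : ∃ A : Euc n ≃ₗ[ℝ] Euc n,
    (∀ θ : Euc n, ProbabilityTheory.variance (fun x => ⟪A x, θ⟫_ℝ) (unif B) = ‖θ‖ ^ 2) ∧
    ∀ f : Euc n → ℝ, ContDiff ℝ 1 f → (∃ b : ℝ, ∀ x, |f x| ≤ b) →
      (∃ b : ℝ, ∀ x, ‖fderiv ℝ f x‖ ≤ b) → ProbabilityTheory.variance (fun x => f (A x)) (unif B) ≤
        c₀ * ∫ x, ‖fderiv ℝ f (A x)‖ ^ 2 ∂(unif B)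

/-! ### admissible norms -/

/-- real `m × l` matrices, with the Euclidean structure of `ℝ^(ml)` -/
abbrev Mat (m l : ℕ) : Type := EuclideanSpace ℝ (Fin m × Fin l)

/-- norms -/
structure IsNorm {κ : Type} [Fintype κ] (N : EuclideanSpace ℝ κ → ℝ) : Prop where
  add_le : ∀ x y, N (x + y) ≤ N x + N y
  smul : ∀ (r : ℝ) (x : EuclideanSpace ℝ κ), N (r • x) = |r| * N x
  pos : ∀ x, x ≠ 0 → 0 < N x

/-- `N` does not change when coordinates are permuted or change their signs -/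
def OneSymmetric {k : ℕ} (N : Euc k → ℝ) : Prop :=
  ∀ σ : Equiv.Perm (Fin k), ∀ x y : Euc k, (∀ i, |y i| = |x (σ i)|) → N y = N x

/-- `N (g X) = N X` for all orthogonal matrices `g` -/
def LeftInvariant {m l : ℕ} (N : Mat m l → ℝ) : Prop :=
  ∀ g ∈ Matrix.orthogonalGroup (Fin m) ℝ, ∀ X : Mat m l,
    N (WithLp.toLp 2 fun p => ∑ k, g p.1 k * X (k, p.2)) = N X

/-- `Φ` is a linear isometric parametrisation of the Hermitian `D × D` matrices over `𝕜` (`ℝ` or `ℂ`),
with the Hilbert-Schmidt norm, by `ℝ^ι` -/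
structure HermFrame {𝕜 : Type} [RCLike 𝕜] {D : ℕ} {ι : Type} [Fintype ι]
    (Φ : EuclideanSpace ℝ ι →ₗ[ℝ] Matrix (Fin D) (Fin D) 𝕜) : Prop where
  herm : ∀ x, (Φ x).conjTranspose = Φ x
  surj : ∀ A : Matrix (Fin D) (Fin D) 𝕜, A.conjTranspose = A → ∃ x, Φ x = A
  iso : ∀ x, ∑ i, ∑ j, ‖Φ x i j‖ ^ 2 = ‖x‖ ^ 2

/-- `N` does not change when the matrix `Φ x` is conjugated by a unitary matrix -/
def ConjInvariant {𝕜 : Type} [RCLike 𝕜] {D : ℕ} {ι : Type} [Fintype ι]
    (Φ : EuclideanSpace ℝ ι →ₗ[ℝ] Matrix (Fin D) (Fin D) 𝕜) (N : EuclideanSpace ℝ ι → ℝ) : Prop :=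
  ∀ U ∈ Matrix.unitaryGroup (Fin D) 𝕜, ∀ x y : EuclideanSpace ℝ ι,
    Φ y = U * Φ x * U.conjTranspose → N y = N x

/-- The norms on `ℝ^k` which are admitted: 1-symmetric norms, and, in any linear coordinates, left
invariant norms on `m × l` matrices, `1 ≤ l ≤ m`, `3 ≤ m`, and conjugation invariant norms on Hermitian
matrices of order at least 3. -/
inductive Admissible : ∀ k : ℕ, (Euc k → ℝ) → Prop
  | oneSymmetric (k : ℕ) (N : Euc k → ℝ) : 1 ≤ k → IsNorm N → OneSymmetric N → Admissible k N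
  | matrices (m l k : ℕ) (e : Mat m l ≃ₗ[ℝ] Euc k) (N : Mat m l → ℝ) : 3 ≤ m → 1 ≤ l → l ≤ m →
      IsNorm N → LeftInvariant N → Admissible k fun z => N (e.symm z)
  | hermitian (𝕜 : Type) [RCLike 𝕜] (D : ℕ) (ι : Type) [Fintype ι]
      (Φ : EuclideanSpace ℝ ι →ₗ[ℝ] Matrix (Fin D) (Fin D) 𝕜) (k : ℕ)
      (e : EuclideanSpace ℝ ι ≃ₗ[ℝ] Euc k) (N : EuclideanSpace ℝ ι → ℝ) : 3 ≤ D → HermFrame Φ →
      IsNorm N → ConjInvariant Φ N → Admissible k fun z => N (e.symm z)

/-! ### the bodies -/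

/-- symmetric bodies: unit balls of admissible norms, symmetric bodies with the Poincaré inequality
with constant `c₀`, and the point in dimension `0` -/
inductive SymBody (c₀ : ℝ) : ∀ {k : ℕ}, Set (Euc k) → Prop
  | point {k : ℕ} {B : Set (Euc k)} : k = 0 → B = univ → SymBody c₀ B
  | norm {k : ℕ} {M : Euc k → ℝ} : Admissible k M → SymBody c₀ {x | M x ≤ 1}
  | poincare {k : ℕ} {B : Set (Euc k)} : PoincareBody c₀ B → (∀ x ∈ B, -x ∈ B) → SymBody c₀ B

/-- even functions which are uniformly convex and uniformly smooth -/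
structure Profile (κ : ℝ) {b : ℕ} (ψ : Euc b → ℝ) : Prop where
  zero : ψ 0 = 0
  even : ∀ s, ψ (-s) = ψ s
  convex : ConvexOn ℝ univ fun s => ψ s - ‖s‖ ^ 2
  smooth : ConvexOn ℝ univ fun s => κ * ‖s‖ ^ 2 - ψ s

/-- the conditions on the constraints `x_i ∈ (1 - ψ_i(Q_i t)) ^ (1 / p_i) B_i` -/
structure System (c₀ κ Γ : ℝ) {N m : ℕ} {k b : Fin N → ℕ} (Q : ∀ i, Euc m →ₗ[ℝ] Euc (b i))
    (ψ : ∀ i, Euc (b i) → ℝ) (p : Fin N → ℝ) (B : ∀ i, Set (Euc (k i))) : Prop where
  profile : ∀ i, Profile κ (ψ i)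
  exponent : ∀ i, 1 ≤ p i
  fibre : ∀ i, SymBody c₀ (B i)
  size : ∀ i, Q i ≠ 0 →
    (Module.finrank ℝ (LinearMap.range (Q i)) : ℝ) ≤ Γ * (k i / p i - 1) ∨
    (2 * p i < k i ∧ ∀ t, 6 * κ * b i * ‖Q i t‖ ^ 2 ≤ ∑ j, k j / p j * ‖Q j t‖ ^ 2)

/-- the bodies: in some linear coordinates, `K` is the set of all
`(x_1, …, x_N, t) ∈ ℝ^{k_1} × ⋯ × ℝ^{k_N} × ℝ^m` such that `ψ_i(Q_i t) ≤ 1` and
`x_i ∈ (1 - ψ_i(Q_i t)) ^ (1 / p_i) B_i` for all `i` -/
structure RidgeBody (c₀ κ Γ : ℝ) {n : ℕ} (K : Set (Euc n)) : Prop where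
  comp : IsCompact K
  int : (interior K).Nonempty
  rep : ∃ (N m : ℕ) (k b : Fin N → ℕ) (e : ((∀ i, Euc (k i)) × Euc m) ≃ₗ[ℝ] Euc n)
    (Q : ∀ i, Euc m →ₗ[ℝ] Euc (b i)) (ψ : ∀ i, Euc (b i) → ℝ) (p : Fin N → ℝ)
    (B : ∀ i, Set (Euc (k i))), System c₀ κ Γ Q ψ p B ∧
    K = e '' {z | ∀ i, ψ i (Q i z.2) ≤ 1 ∧
      ∃ y ∈ B i, z.1 i = (1 - ψ i (Q i z.2)) ^ (1 / p i) • y}

/-- the fibre over `t` of the set `K ⊂ ℝⁿ ≅ ℝ^N × ℝ^j` -/
def fibre {N j n : ℕ} (e : (Euc N × Euc j) ≃ₗ[ℝ] Euc n) (K : Set (Euc n)) (t : Euc j) :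
    Set (Euc N) := {x | e (x, t) ∈ K}

/-- The class of bodies. It contains the bodies of `RidgeBody` (`base`). Bodies of
depth `h + 1` are obtained from those of depth `h` by
* images under affine maps with kernels of dimension at most `r` (`image`), and adding at most `r`
  dimensions (`lift`: all convex bodies `K` with a linear image, under a map with a kernel of dimension
  at most `r`, of depth `h`);
* `fibred`: all convex bodies `K ⊂ ℝ^N × ℝ^j`, `j ≤ r`, whose fibres over the points of `ℝ^j` are of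
  depth `h` or of volume zero. -/
inductive Ridges (c₀ κ Γ : ℝ) (r : ℕ) : ℕ → ∀ {n : ℕ}, Set (Euc n) → Prop
  | base {n : ℕ} {K : Set (Euc n)} : RidgeBody c₀ κ Γ K → Ridges c₀ κ Γ r 0 K
  | up {h n : ℕ} {K : Set (Euc n)} : Ridges c₀ κ Γ r h K → Ridges c₀ κ Γ r (h + 1) K
  | image {h m n : ℕ} {K : Set (Euc m)} (T : Euc m →ₗ[ℝ] Euc n) (w : Euc n) : m ≤ n + r →
      Function.Surjective T → Ridges c₀ κ Γ r h K → Ridges c₀ κ Γ r (h + 1) ((fun x => w + T x) '' K)
  | lift {h m n : ℕ} {K : Set (Euc m)} (T : Euc m →ₗ[ℝ] Euc n) : m ≤ n + r →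
      Function.Surjective T → Body K → Ridges c₀ κ Γ r h (T '' K) → Ridges c₀ κ Γ r (h + 1) K
  | fibred {h N j n : ℕ} {K : Set (Euc n)} (e : (Euc N × Euc j) ≃ₗ[ℝ] Euc n) : j ≤ r → Body K →
      (∀ t, volume (fibre e K t) ≠ 0 → Ridges c₀ κ Γ r h (fibre e K t)) → Ridges c₀ κ Γ r (h + 1) K

/-- the Lebesgue measure of a Euclidean space -/
noncomputable def lebesgue (F : Type) [NormedAddCommGroup F] [InnerProductSpace ℝ F]
    [FiniteDimensional ℝ F] [MeasurableSpace F] [BorelSpace F] : Measure F := volume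

/-- the Lebesgue measure (of the Euclidean space `W`) of the section `Ω ∩ W` by a subspace `W` -/
noncomputable def areaIn {F : Type} [NormedAddCommGroup F] [InnerProductSpace ℝ F]
    [FiniteDimensional ℝ F] [MeasurableSpace F] [BorelSpace F] (W : Submodule ℝ F) (Ω : Set F) :
    ℝ≥0∞ := lebesgue W {y : W | (y : F) ∈ Ω}

section defs

variable {κ : Type} [Fintype κ]

open Classical in
/-- divergence of a vector field on `ℝ^κ` -/
noncomputable def divergence (X : EuclideanSpace ℝ κ → EuclideanSpace ℝ κ)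
    (x : EuclideanSpace ℝ κ) : ℝ :=
  ∑ i, fderiv ℝ X x (EuclideanSpace.single i 1) i

/-- `C¹` vector fields with compact support in `Ω` and `‖X‖ ≤ 1` -/
structure Test (Ω : Set (EuclideanSpace ℝ κ)) (X : EuclideanSpace ℝ κ → EuclideanSpace ℝ κ) :
    Prop where
  diff : ContDiff ℝ 1 X
  comp : HasCompactSupport X
  sub : tsupport X ⊆ Ω
  le : ∀ x, ‖X x‖ ≤ 1

/-- the (De Giorgi) perimeter `P(E; Ω)` of `E` relative to the open set `Ω` -/
noncomputable def perimeter (E Ω : Set (EuclideanSpace ℝ κ)) : ℝ≥0∞ :=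
  ⨆ (X : EuclideanSpace ℝ κ → EuclideanSpace ℝ κ) (_ : Test Ω X),
    ENNReal.ofReal (∫ x in E, divergence X x)

/-- the area (Lebesgue measure in the hyperplane `a^⊥`) of the central section of `Ω` by `a^⊥` -/
noncomputable def sectionArea (Ω : Set (EuclideanSpace ℝ κ)) (a : EuclideanSpace ℝ κ) : ℝ≥0∞ :=
  areaIn (Submodule.span ℝ {a})ᗮ Ω

/-- some central hyperplane section has area at most `C P(E; Ω)` for every measurable `E ⊆ Ω` with
`|E| = |Ω| / 2` -/
def HyperplaneBound (C : ℝ) (Ω : Set (EuclideanSpace ℝ κ)) : Prop :=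
  ∃ a : EuclideanSpace ℝ κ, a ≠ 0 ∧ ∀ E : Set (EuclideanSpace ℝ κ), MeasurableSet E → E ⊆ Ω →
    volume E = volume Ω / 2 → sectionArea Ω a ≤ ENNReal.ofReal C * perimeter E Ω

/-- the perimeter is the one used in the proof -/
theorem perimeter_eq (E Ω : Set (EuclideanSpace ℝ κ)) :
    Pool.Agent.W695.KH.per E Ω = perimeter E Ω := by
  unfold perimeter Pool.Agent.W695.KH.per
  refine iSup_congr fun X => ?_
  refine iSup_congr_Prop ⟨fun h => ⟨h.1, h.2.1, h.2.2.1, h.2.2.2⟩,
    fun h => ⟨h.diff, h.comp, h.sub, h.le⟩⟩ fun _ => rfl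

end defs

/-! ### proof -/

theorem nrm_of {κ : Type} [Fintype κ] {N : EuclideanSpace ℝ κ → ℝ} (h : IsNorm N) :
    Pool.Agent.R751.MB.Nrm N := ⟨h.add_le, h.smul, h.pos⟩

theorem an_of {k : ℕ} {N : Euc k → ℝ} (h : Admissible k N) : Pool.Agent.R751.MB.AN k N := by
  cases h with
  | oneSymmetric _ _ hk hN hinv => exact .sym _ _ hk (nrm_of hN) hinv
  | matrices m l _ e N hm hl hlm hN hinv => exact .mat m l k e N hm hl hlm (nrm_of hN) hinv
  | hermitian 𝕜 D ι Φ _ e N hD hΦ hN hinv =>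
    exact .her 𝕜 D ι Φ k e N hD ⟨hΦ.herm, hΦ.surj, hΦ.iso⟩ (nrm_of hN) hinv

theorem var_eq {n : ℕ} {K : Set (Euc n)} (hK : IsCompact K) (hi : (interior K).Nonempty)
    {f : Euc n → ℝ} (hf : Continuous f) : ProbabilityTheory.variance f (unif K) =
      (∫ x, f x ^ 2 ∂(unif K)) - (∫ x, f x ∂(unif K)) ^ 2 := by
  have h0 : volume K ≠ 0 := Pool.Agent.R755.KF.vol_ne hi
  have hp : IsProbabilityMeasure (unif K) :=
    Pool.Agent.R754.KG.un_prob h0 hK.measure_lt_top.ne
  have h2 : Integrable (fun x => f x ^ 2) (unif K) :=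
    Pool.Agent.R754.KG.un_int h0 hK.isBounded (hf.pow 2)
  rw [ProbabilityTheory.variance_eq_sub
    ((memLp_two_iff_integrable_sq hf.aestronglyMeasurable).2 h2)]
  rfl

theorem ap_of {c₀ : ℝ} {n : ℕ} {B : Set (Euc n)} (h : PoincareBody c₀ B) :
    Pool.Agent.R751.MB.AP c₀ (Pool.Agent.R751.MB.ind B) := by
  obtain ⟨A, h1, h2⟩ := h.ineq
  have hm := h.comp.measurableSet
  have hAc : Continuous A := A.toLinearMap.continuous_of_finiteDimensional
  refine ⟨Pool.Agent.W5h33.KL.adm_body h.comp h.int, A.toContinuousLinearEquiv, fun θ => ?_,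
    fun f hf hb hl => ?_⟩
  · have h3 := h1 θ
    rw [var_eq h.comp h.int (by fun_prop)] at h3
    exact (Pool.Agent.R754.KG.VW_ind hm _).trans h3
  · have h3 := h2 f hf hb hl
    rw [var_eq h.comp h.int (f := fun x => f (A x)) (hf.continuous.comp hAc)] at h3
    have h4 := Pool.Agent.R754.KG.VW_ind hm fun x => f (A x)
    have h5 := Pool.Agent.R754.KG.EW_ind hm fun x => ‖fderiv ℝ f (A x)‖ ^ 2
    refine le_trans (le_of_eq h4) (h3.trans (le_of_eq ?_))
    exact congrArg (c₀ * ·) h5.symm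

/-- dilates of bodies -/
theorem set_eq {N m : ℕ} {k b : Fin N → ℕ} (Q : ∀ i, Euc m →ₗ[ℝ] Euc (b i))
    (ψ : ∀ i, Euc (b i) → ℝ) (p : Fin N → ℝ) (B : ∀ i, Set (Euc (k i))) :
    {z : (∀ i, Euc (k i)) × Euc m | ∀ i, ψ i (Q i z.2) ≤ 1 ∧
      ∃ y ∈ B i, z.1 i = (1 - ψ i (Q i z.2)) ^ (1 / p i) • y} =
    Pool.Agent.W5h33.KQ.rb (Pool.Agent.W5h33.KQ.qF ψ Q (fun i => 1 / p i) B) := by
  ext z
  constructor
  · intro h i
    obtain ⟨h1, y, hy, h2⟩ := h i
    refine ⟨h1, y, hy, ?_⟩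
    rw [Pool.Agent.W5h33.KQ.ph_of_le h1]
    exact h2.symm
  · intro h i
    obtain ⟨h1, y, hy, h2⟩ := h i
    refine ⟨h1, y, hy, ?_⟩
    rw [Pool.Agent.W5h33.KQ.ph_of_le h1] at h2
    exact h2.symm

/-- the properties which are used in the proof -/
theorem sym_of (c₀ : ℝ) : ∃ A : ℝ, 0 < A ∧ ∀ (k : ℕ) (B : Set (Euc k)), SymBody c₀ B →
    IsCompact B ∧ Convex ℝ B ∧ (interior B).Nonempty ∧ (∀ x ∈ B, -x ∈ B) ∧
      Pool.Agent.R751.MB.AP A (Pool.Agent.R751.MB.ind B) := by
  obtain ⟨A2, hA2, H2⟩ := Pool.Agent.W5h33.KL.an_ap Pool.Agent.R751.MB.pSYM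
    Pool.Agent.R751.MB.pMAT Pool.Agent.R751.MB.pHER
  refine ⟨max A2 c₀, lt_max_of_lt_left hA2, fun k B hB => ?_⟩
  cases hB with
  | point hk hB =>
    subst hk
    subst hB
    have h1 : Pool.Agent.R751.MB.ind (univ : Set (Euc 0)) = fun _ => (1 : ℝ) := by
      funext y
      unfold Pool.Agent.R751.MB.ind
      exact indicator_of_mem (mem_univ y) _
    refine ⟨(Set.toFinite _).isCompact, convex_univ, by simp, fun _ _ => mem_univ _, ?_⟩
    rw [h1]
    exact Pool.Agent.R751.MB.ap_zero (lt_max_of_lt_left hA2).le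
  | @norm M hM =>
    obtain ⟨b1, b2, b3, b4⟩ :=
      Pool.Agent.W5h33.KL.ball_body (Pool.Agent.R751.MB.AN.basic (an_of hM)).1
    exact ⟨b1, b2, b3, b4, (H2 k M (an_of hM)).mono (le_max_left _ _)⟩
  | poincare h hs => exact ⟨h.comp, h.conv, h.int, hs, (ap_of h).mono (le_max_right _ _)⟩

/-- the bodies belong to the class of the starting result `CentredFibrations` -/
theorem ridges_ct (c₀ κ Γ : ℝ) (hκ : 1 ≤ κ) (hΓ : 0 ≤ Γ) : ∃ A : ℝ → ℝ, ∀ (r h n : ℕ) (K : Set (Euc n)),
    Ridges c₀ κ Γ r h K → Pool.Agent.R755.KS.Ct A ((3 + Γ) ^ 2) r r (h + 1) n K := by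
  obtain ⟨A0, hA0, H0⟩ := sym_of c₀
  obtain ⟨A, H⟩ := Pool.Agent.W5h33.KQ.quad_ct A0 κ Γ hA0
  refine ⟨A, fun r h n K hK => ?_⟩
  induction hK with
  | base hK =>
    obtain ⟨h1, h2, N, m, k, b, e, Q, ψ, p, B, hS, rfl⟩ := hK
    have hp0 : ∀ i, 0 < p i := fun i => by linarith [hS.exponent i]
    rw [set_eq] at h1 h2 ⊢
    have hpk : ∀ j, 1 / p j * (k j : ℝ) = k j / p j := fun j => by rw [one_div, inv_mul_eq_div]
    refine H r r _ N m k b e ψ Q (fun i => 1 / p i) B ⟨fun i => ?_, hκ, hΓ, fun i => ?_,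
      fun i => ?_, fun i hi => ?_, fun i => (H0 _ _ (hS.fibre i)).1,
      fun i => (H0 _ _ (hS.fibre i)).2.1, fun i => (H0 _ _ (hS.fibre i)).2.2.1,
      fun i => (H0 _ _ (hS.fibre i)).2.2.2.1, fun i => (H0 _ _ (hS.fibre i)).2.2.2.2⟩ h1 h2
    · exact ⟨(hS.profile i).zero, (hS.profile i).even, (hS.profile i).convex,
        (hS.profile i).smooth⟩
    · exact one_div_pos.2 (hp0 i)
    · exact (div_le_one (hp0 i)).2 (hS.exponent i)
    · rcases hS.size i hi with h3 | ⟨h3, h4⟩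
      · left
        show _ ≤ Γ * (1 / p i * (k i : ℝ) - 1)
        rw [hpk]
        exact h3
      · right
        refine ⟨?_, fun x => (h4 x).trans (le_of_eq ?_)⟩
        · show 2 < 1 / p i * (k i : ℝ)
          rw [hpk, lt_div_iff₀ (hp0 i)]
          exact h3
        · refine Finset.sum_congr rfl fun j _ => ?_
          show k j / p j * ‖Q j x‖ ^ 2 = 1 / p j * (k j : ℝ) * ‖Q j x‖ ^ 2
          rw [hpk]
  | up _ ih => exact .up _ _ _ ih
  | image T w hm hT _ ih => exact .image _ _ _ _ T w hm hT ih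
  | lift T hm hT hb _ ih => exact .lift _ _ _ _ T hm hT hb.comp hb.conv hb.int ih
  | fibred e hj hb _ ih => exact .fibred _ _ _ _ _ e hj hb.comp hb.conv hb.int ih

/-! ### intersections of cylinders -/

/-- the intersection of the kernels of the maps `P_j`, `j ≠ i` -/
def common {n N : ℕ} {d : Fin N → ℕ} (P : ∀ i, Euc n →ₗ[ℝ] Euc (d i)) (i : Fin N) :
    Submodule ℝ (Euc n) := ⨅ (j : Fin N) (_ : j ≠ i), LinearMap.ker (P j)

/-- the intersection of the ellipsoidal cylinders `|P_i x| ≤ 1` -/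
def cylinders {n N : ℕ} {d : Fin N → ℕ} (P : ∀ i, Euc n →ₗ[ℝ] Euc (d i)) : Set (Euc n) :=
  {x | ∀ i, ‖P i x‖ ≤ 1}

theorem cyl_compact {n N : ℕ} {d : Fin N → ℕ} (P : ∀ i, Euc n →ₗ[ℝ] Euc (d i))
    (hk : ∀ x, (∀ i, P i x = 0) → x = 0) :
    IsCompact (cylinders P) ∧ (interior (cylinders P)).Nonempty := by
  have hc : ∀ i, Continuous (P i) := fun i => (P i).continuous_of_finiteDimensional
  have hcl : IsClosed (cylinders P) := by
    have h1 : cylinders P = ⋂ i, {x | ‖P i x‖ ≤ 1} := by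
      ext x
      simp only [cylinders, mem_iInter, mem_ofPred_eq]
    rw [h1]
    exact isClosed_iInter fun i => isClosed_le (hc i).norm continuous_const
  have hbd : Bornology.IsBounded (cylinders P) := by
    obtain ⟨K, -, hK⟩ := LinearMap.exists_antilipschitzWith (LinearMap.pi P) (by
      rw [LinearMap.ker_eq_bot']
      intro x hx
      exact hk x fun i => congrFun hx i)
    refine (hK.isBounded_preimage (Metric.isBounded_closedBall (x := 0) (r := 1))).subset ?_
    intro x hx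
    rw [mem_preimage, mem_closedBall_zero_iff]
    exact (pi_norm_le_iff_of_nonneg zero_le_one).2 fun i => hx i
  refine ⟨Metric.isCompact_of_isClosed_isBounded hcl hbd, ?_⟩
  have hop : IsOpen (⋂ i, {x : Euc n | ‖P i x‖ < 1}) :=
    isOpen_iInter_of_finite fun i => isOpen_lt (hc i).norm continuous_const
  refine ⟨0, interior_maximal (fun x hx i => ?_) hop ?_⟩
  · exact (mem_iInter.1 hx i).le
  · refine mem_iInter.2 fun i => ?_
    show ‖P i 0‖ < 1
    rw [map_zero, norm_zero]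
    exact zero_lt_one

/-- one cylinder -/
theorem ball_iff {k b : ℕ} (x : Euc k) (q : Euc b) : ‖x‖ ^ 2 + ‖q‖ ^ 2 ≤ 1 ↔
    ‖q‖ ^ 2 ≤ 1 ∧ ∃ y : Euc k, ‖y‖ ≤ 1 ∧ x = ((1 - ‖q‖ ^ 2) ^ (1 / 2 : ℝ)) • y := by
  constructor
  · intro h
    have hx := sq_nonneg ‖x‖
    refine ⟨by linarith, ?_⟩
    rcases (sub_nonneg.2 (by linarith : ‖q‖ ^ 2 ≤ 1)).eq_or_lt with h1 | h1
    · have h2 : ‖x‖ ^ 2 = 0 := le_antisymm (by linarith) hx
      have h3 : x = 0 := norm_eq_zero.1 ((pow_eq_zero_iff two_ne_zero).1 h2)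
      exact ⟨0, by simp, by rw [h3, smul_zero]⟩
    · have hr : 0 < (1 - ‖q‖ ^ 2) ^ (1 / 2 : ℝ) := Real.rpow_pos_of_pos h1 _
      refine ⟨((1 - ‖q‖ ^ 2) ^ (1 / 2 : ℝ))⁻¹ • x, ?_, by rw [smul_inv_smul₀ hr.ne']⟩
      rw [norm_smul, norm_inv, Real.norm_of_nonneg hr.le, inv_mul_le_iff₀ hr, mul_one,
        ← Real.sqrt_eq_rpow]
      exact Real.le_sqrt_of_sq_le (by linarith)
  · rintro ⟨h1, y, hy, rfl⟩
    rw [norm_smul, Real.norm_of_nonneg (Real.rpow_nonneg (by linarith) _), mul_pow,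
      ← Real.sqrt_eq_rpow, Real.sq_sqrt (by linarith)]
    have h2 : ‖y‖ ^ 2 ≤ 1 := pow_le_one₀ (norm_nonneg _) hy
    nlinarith

theorem euc_norm (k : ℕ) : IsNorm (fun x : Euc k => ‖x‖) ∧ OneSymmetric (fun x : Euc k => ‖x‖) := by
  refine ⟨⟨norm_add_le, fun r x => ?_, fun x hx => norm_pos_iff.2 hx⟩, fun σ x y h => ?_⟩
  · rw [norm_smul, Real.norm_eq_abs]
  · show ‖y‖ = ‖x‖
    rw [EuclideanSpace.norm_eq, EuclideanSpace.norm_eq]
    congr 1
    rw [← Equiv.sum_comp σ fun i => ‖x i‖ ^ 2]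
    refine Finset.sum_congr rfl fun i _ => ?_
    rw [Real.norm_eq_abs, Real.norm_eq_abs, h i]

/-- intersections of cylinders belong to the class -/
theorem cyl_body {n N Γ : ℕ} {d : Fin N → ℕ} (P : ∀ i, Euc n →ₗ[ℝ] Euc (d i))
    (hk : ∀ x, (∀ i, P i x = 0) → x = 0)
    (hd : ∀ i, Module.finrank ℝ (LinearMap.range (P i)) ≤
      Module.finrank ℝ (common P i) + Γ * (Module.finrank ℝ (common P i) - 2)) :
    RidgeBody 1 1 (2 * Γ) (cylinders P) := by
  obtain ⟨hc, hi⟩ := cyl_compact P hk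
  obtain ⟨m, k, b, e, Q, hkc, hkb, hP⟩ := Pool.Agent.W5h33.KQ.cyl_rep P hk
  have hbk : ∀ i, Q i ≠ 0 → 1 ≤ b i := by
    intro i hQ
    by_contra hb
    have hb0 : b i = 0 := by omega
    refine hQ (LinearMap.ext fun x => ?_)
    have hs : Subsingleton (Euc (b i)) := by
      rw [hb0]
      infer_instance
    exact Subsingleton.elim _ _
  refine ⟨hc, hi, N, m, k, b, e, Q, fun i s => ‖s‖ ^ 2, fun _ => 2, fun i => {y | ‖y‖ ≤ 1},
    ⟨fun i => ⟨by simp, fun s => by rw [norm_neg], ?_, ?_⟩, fun i => by norm_num, fun i => ?_,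
      fun i hQ => .inl ?_⟩, ?_⟩
  · have h1 : (fun s : Euc (b i) => ‖s‖ ^ 2 - ‖s‖ ^ 2) = fun _ => 0 := by
      funext s
      ring
    rw [h1]
    exact convexOn_const 0 convex_univ
  · have h1 : (fun s : Euc (b i) => 1 * ‖s‖ ^ 2 - ‖s‖ ^ 2) = fun _ => 0 := by
      funext s
      ring
    rw [h1]
    exact convexOn_const 0 convex_univ
  · rcases Nat.eq_zero_or_pos (k i) with h0 | h0
    · refine .point h0 (eq_univ_of_forall fun y => ?_)
      have hs : Subsingleton (Euc (k i)) := by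
        rw [h0]
        infer_instance
      show ‖y‖ ≤ 1
      rw [Subsingleton.elim y 0, norm_zero]
      exact zero_le_one
    · exact .norm (.oneSymmetric _ _ h0 (euc_norm _).1 (euc_norm _).2)
  · have h1 := hbk i hQ
    have h2 : b i + k i ≤ Module.finrank ℝ (LinearMap.range (P i)) := hkb i
    have h3 := hd i
    have h4 : k i = Module.finrank ℝ (common P i) := hkc i
    rw [← h4] at h3
    have h5 := Submodule.finrank_le (LinearMap.range (Q i))
    rw [finrank_euclideanSpace_fin] at h5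
    have h6 : b i ≤ Γ * (k i - 2) := by omega
    have h7 : 2 ≤ k i := by
      by_contra hc
      have h8 : k i - 2 = 0 := by omega
      rw [h8, mul_zero] at h6
      omega
    have h8 : ((Module.finrank ℝ (LinearMap.range (Q i)) : ℕ) : ℝ) ≤ ((Γ * (k i - 2) : ℕ) : ℝ) := by
      exact_mod_cast h5.trans h6
    rw [Nat.cast_mul, Nat.cast_sub h7] at h8
    refine h8.trans (le_of_eq ?_)
    push_cast
    ring
  · ext x
    constructor
    · intro hx
      refine ⟨e.symm x, fun i => ?_, e.apply_symm_apply x⟩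
      have h1 := hP i (e.symm x)
      rw [e.apply_symm_apply] at h1
      have h2 : ‖P i x‖ ^ 2 ≤ 1 := pow_le_one₀ (norm_nonneg _) (hx i)
      exact (ball_iff _ _).1 (by linarith)
    · rintro ⟨z, hz, rfl⟩ i
      have h1 := (ball_iff _ _).2 (hz i)
      rw [← hP i z] at h1
      exact (pow_le_one_iff_of_nonneg (norm_nonneg _) two_ne_zero).1 h1

/-- the dimensions of the intersections of kernels -/
theorem common_ge {n N : ℕ} {d : Fin N → ℕ} (P : ∀ i, Euc n →ₗ[ℝ] Euc (d i)) (i : Fin N) :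
    n + Module.finrank ℝ (LinearMap.range (P i)) ≤
      Module.finrank ℝ (common P i) + ∑ j, Module.finrank ℝ (LinearMap.range (P j)) := by
  classical
  have key : ∀ s : Finset (Fin N), n ≤ Module.finrank ℝ (⨅ j ∈ s, LinearMap.ker (P j) :
      Submodule ℝ (Euc n)) + ∑ j ∈ s, Module.finrank ℝ (LinearMap.range (P j)) := by
    intro s
    induction s using Finset.induction_on with
    | empty =>
      have h0 : (⨅ j ∈ (∅ : Finset (Fin N)), LinearMap.ker (P j)) = ⊤ := by simp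
      rw [h0, finrank_top, finrank_euclideanSpace_fin]
      exact Nat.le_add_right _ _
    | insert a s ha ih =>
      rw [Finset.sum_insert ha, Finset.iInf_insert]
      have h1 := Submodule.finrank_sup_add_finrank_inf_eq (LinearMap.ker (P a))
        (⨅ j ∈ s, LinearMap.ker (P j))
      have h2 := Submodule.finrank_le (LinearMap.ker (P a) ⊔ ⨅ j ∈ s, LinearMap.ker (P j))
      have h3 := LinearMap.finrank_range_add_finrank_ker (P a)
      rw [finrank_euclideanSpace_fin] at h2 h3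
      omega
  have h1 := key (Finset.univ.erase i)
  have h2 : (⨅ j ∈ Finset.univ.erase i, LinearMap.ker (P j)) = common P i := by
    unfold common
    refine iInf_congr fun j => ?_
    simp only [Finset.mem_erase, Finset.mem_univ, and_true]
  rw [h2] at h1
  have h3 := Finset.add_sum_erase Finset.univ
    (fun j => Module.finrank ℝ (LinearMap.range (P j))) (Finset.mem_univ i)
  omega

/-- the condition on the ranks holds, with `Γ = 3`, for sections of codimension at most `q` of products of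
Euclidean balls, if the ranks are at least `2 q` and at least `6` -/
theorem rank_of_codim {n N q : ℕ} {d : Fin N → ℕ} (P : ∀ i, Euc n →ₗ[ℝ] Euc (d i))
    (h1 : ∑ j, Module.finrank ℝ (LinearMap.range (P j)) ≤ n + q)
    (h2 : ∀ i, 2 * q ≤ Module.finrank ℝ (LinearMap.range (P i)) ∧
      6 ≤ Module.finrank ℝ (LinearMap.range (P i))) (i : Fin N) :
    Module.finrank ℝ (LinearMap.range (P i)) ≤
      Module.finrank ℝ (common P i) + 3 * (Module.finrank ℝ (common P i) - 2) := by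
  have h3 := common_ge P i
  have h4 := h2 i
  omega

theorem main (c₀ κ Γ : ℝ) (r h : ℕ) (hκ : 1 ≤ κ) (hΓ : 0 ≤ Γ) : ∃ C : ℝ, 0 < C ∧
    ∀ (n : ℕ) (K : Set (Euc n)), 1 ≤ n → Ridges c₀ κ Γ r h K → (∀ x ∈ K, -x ∈ K) →
    HyperplaneBound C (interior K) := by
  obtain ⟨A, H0⟩ := ridges_ct c₀ κ Γ hκ hΓ
  obtain ⟨c, hc, H⟩ := Pool.Agent.R755.KS.ctR A ((3 + Γ) ^ 2) (by positivity) r r (h + 1)
  obtain ⟨C, hC, H'⟩ := Pool.Agent.Y151.PV.hyp
  refine ⟨C * c, by positivity, fun n P hn hK hs => ?_⟩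
  obtain ⟨h1, h2, h3, h4⟩ := H n P (H0 r h n P hK)
  have hcl : closure (interior P) = P := by
    rw [h2.closure_interior_eq_closure_of_nonempty_interior h3, h1.isClosed.closure_eq]
  have hsi : ∀ x ∈ interior P, -x ∈ interior P := by
    intro x hx
    have hop : IsOpen ((fun y => -y) ⁻¹' interior P) := isOpen_interior.preimage continuous_neg
    have hsub : (fun y => -y) ⁻¹' interior P ⊆ P := by
      intro y hy
      have := hs _ (interior_subset hy)
      rwa [neg_neg] at this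
    exact interior_maximal hsub hop (by simpa using hx)
  have h0 : (0 : Euc n) ∈ interior P := by
    obtain ⟨x, hx⟩ := h3
    have h := h2.interior hx (hsi x hx) (by norm_num : (0 : ℝ) ≤ 1 / 2)
      (by norm_num : (0 : ℝ) ≤ 1 / 2) (by norm_num)
    rwa [smul_neg, add_neg_cancel] at h
  obtain ⟨a, ha, h⟩ := H' n hn (interior P) isOpen_interior h2.interior
    (h1.isBounded.subset interior_subset) h0 hsi c hc (by rw [hcl]; exact h4)
  refine ⟨a, ha, fun E hE hEΩ hvol => ?_⟩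
  rw [← perimeter_eq]
  by_cases hp : Pool.Agent.W695.KH.per E (interior P) = ⊤
  · rw [hp, ENNReal.mul_top (ENNReal.ofReal_pos.2 (by positivity)).ne']
    exact le_top
  · refine (h E hE hEΩ hvol _ (Pool.Agent.W695.KH.perLe_toReal E _ hp)).trans (le_of_eq ?_)
    rw [ENNReal.ofReal_mul (by positivity), ENNReal.ofReal_toReal hp]

/-- **The hyperplane conjecture for arbitrarily many uniformly convex ridge constraints.**
(1) For all `c₀`, `κ ≥ 1`, `Γ ≥ 0`, `r` and `h` there is a constant `C > 0` such that for all `n ≥ 1` and all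
symmetric bodies `K ⊂ ℝⁿ` of the class `Ridges c₀ κ Γ r h`, the interior `Ω` of `K` has a central hyperplane
section `Ω ∩ a^⊥` with `H_{n-1}(Ω ∩ a^⊥) ≤ C P(E; Ω)` for every measurable `E ⊆ Ω` with `|E| = |Ω| / 2`.
(2) For every natural number `Γ` there is a constant `C > 0` such that this holds for all `n ≥ 1` and all
intersections `{x ∈ ℝⁿ | |P_i x| ≤ 1 for i = 1, …, N}` of arbitrarily many ellipsoidal cylinders, where
`P_i : ℝⁿ → ℝ^{d_i}` are linear maps with `⋂ ker P_i = 0` and `rank P_i ≤ e_i + Γ (e_i - 2)` for all `i`, with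
`e_i = dim ⋂_{j ≠ i} ker P_j` (and `e_i - 2 = 0` if `e_i < 2`). -/
theorem result : (∀ (c₀ κ Γ : ℝ) (r h : ℕ), 1 ≤ κ → 0 ≤ Γ → ∃ C : ℝ, 0 < C ∧
    ∀ (n : ℕ) (K : Set (Euc n)), 1 ≤ n → Ridges c₀ κ Γ r h K → (∀ x ∈ K, -x ∈ K) →
    HyperplaneBound C (interior K)) ∧
    ∀ Γ : ℕ, ∃ C : ℝ, 0 < C ∧ ∀ (n N : ℕ) (d : Fin N → ℕ) (P : ∀ i, Euc n →ₗ[ℝ] Euc (d i)),
    1 ≤ n → (∀ x, (∀ i, P i x = 0) → x = 0) →
    (∀ i, Module.finrank ℝ (LinearMap.range (P i)) ≤
      Module.finrank ℝ (common P i) + Γ * (Module.finrank ℝ (common P i) - 2)) →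
    HyperplaneBound C (interior (cylinders P)) := by
  refine ⟨fun c₀ κ Γ r h hκ hΓ => main c₀ κ Γ r h hκ hΓ, fun Γ => ?_⟩
  obtain ⟨C, hC, H⟩ := main 1 1 (2 * Γ) 0 0 le_rfl (by positivity)
  refine ⟨C, hC, fun n N d P hn hk hd => H n _ hn (.base (cyl_body P hk hd)) fun x hx i => ?_⟩
  rw [map_neg, norm_neg]
  exact hx i

end Pool.Agent.Results.MP_dc1397_gt.UniformRidges
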